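import Mathlib

/-!
# The numerical estimate
-/

set_option autoImplicit false

namespace Pool.Agent.PD

theorem sqrt_bound (q : ℕ) : Real.sqrt ((q : ℝ) ^ 2 + q + 1) ≤ q + 1 := by
  rw [Real.sqrt_le_left (by positivity)]
  have : (0 : ℝ) ≤ q := Nat.cast_nonneg q
  nlinarith

theorem num (q m : ℕ) (δ ε s : ℝ) (hδ : 0 ≤ δ) (hε : 0 < ε) (hδε : δ + ε ≤ 1) (hq : 40 ≤ q)
    (hqε : 64 < (q : ℝ) * ε ^ 2) (hs1 : (q : ℝ) + 2 ≤ s ^ 2)
    (hs2 : s + 4 ≤ Real.sqrt m)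
    (hm : (m : ℝ) ≤ (q : ℝ) ^ 2 + q + 1 + (1 - δ - ε) * Real.sqrt ((q : ℝ) ^ 2 + q + 1))
    (hb : ((q : ℝ) - s - (δ + ε / 4)) * (s ^ 2 + s + 1) ≤ m) : False := by
  have hq' : (40 : ℝ) ≤ q := by exact_mod_cast hq
  have hε1 : ε ≤ 1 := by linarith
  have h1 : (1 - δ - ε) * Real.sqrt ((q : ℝ) ^ 2 + q + 1) ≤ (1 - δ - ε) * (q + 1) :=
    mul_le_mul_of_nonneg_left (sqrt_bound q) (by linarith)
  have hm' : (m : ℝ) ≤ (q : ℝ) ^ 2 + 2 * q + 2 - (δ + ε) * (q + 1) := by linarith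
  -- `q ε > 64`
  have hqe : 64 < (q : ℝ) * ε := by
    have : (q : ℝ) * ε ^ 2 ≤ q * ε := by
      have h2 : ε ^ 2 ≤ ε := by nlinarith
      exact mul_le_mul_of_nonneg_left h2 (by linarith)
    linarith
  have hsq : s ≤ q - 3 := by
    have h3 : Real.sqrt m ≤ q + 1 := by
      rw [Real.sqrt_le_left (by positivity)]
      nlinarith
    linarith
  set η : ℝ := δ + ε / 4 with hη
  have hη1 : η ≤ 1 := by rw [hη]; linarith
  have hη0 : 0 ≤ η := by rw [hη]; positivity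
  have hid : ((q : ℝ) - s - η) * (s ^ 2 + s + 1) =
      (q : ℝ) ^ 2 + 2 * q - 2 - 3 * s + (s ^ 2 - q - 2) * (q - s - 1 - η) - η * (q + 3 + s) := by
    ring
  have hkey : (s ^ 2 - q - 2) * (q - s - 1 - η) + (3 * ε / 4) * q ≤ 7 + 4 * s := by
    rw [hid] at hb
    have h2 : (s ^ 2 - q - 2) * (q - s - 1 - η) + (δ + ε) * (q + 1) - η * (q + 3 + s) ≤
        4 + 3 * s := by linarith
    have h3 : η * (3 + s) ≤ 3 + s := by
      rcases le_or_gt 0 (3 + s) with h4 | h4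
      · nlinarith
      · exfalso
        nlinarith
    have h5 : (δ + ε) * (q + 1) - η * (q + 3 + s) =
        (3 * ε / 4) * q + (δ + ε) - η * (3 + s) := by
      rw [hη]
      ring
    linarith
  have hr : 0 ≤ s ^ 2 - q - 2 := by linarith
  rcases le_or_gt s (3 * q / 4 - 2) with h | h
  · have h4 : (s ^ 2 - q - 2) * (q / 4) ≤ (s ^ 2 - q - 2) * (q - s - 1 - η) :=
      mul_le_mul_of_nonneg_left (by linarith) hr
    have h5 : 4 * s ≤ ε * s ^ 2 / 2 + 8 / ε := by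
      have h6 : 0 ≤ (ε * s - 4) ^ 2 / (2 * ε) := by positivity
      have h7 : (ε * s - 4) ^ 2 / (2 * ε) = ε * s ^ 2 / 2 + 8 / ε - 4 * s := by
        field_simp
        ring
      linarith
    have h8 : 16 / ε < q * ε / 4 := by
      rw [div_lt_iff₀ hε]
      nlinarith
    have h9 : 8 ≤ 8 / ε := by
      rw [le_div_iff₀ hε]
      linarith
    have h10 : 16 / ε = 8 / ε + 8 / ε := by ring
    have h11 : (s ^ 2 - q - 2) * (ε / 2) ≤ (s ^ 2 - q - 2) * (q / 4) :=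
      mul_le_mul_of_nonneg_left (by linarith) hr
    have h12 : ε * s ^ 2 / 2 = (s ^ 2 - q - 2) * (ε / 2) + ε * q / 2 + ε := by ring
    linarith
  · have h4 : (s ^ 2 - q - 2) * 1 ≤ (s ^ 2 - q - 2) * (q - s - 1 - η) :=
      mul_le_mul_of_nonneg_left (by linarith) hr
    have h5 : (3 * (q : ℝ) / 4 - 2) ^ 2 ≤ s ^ 2 := by
      apply pow_le_pow_left₀ (by linarith) h.le
    have h6 : 0 < (3 * ε / 4) * q := by positivity
    nlinarith

end Pool.Agent.PD
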