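import Pool.Agent.Helper63_PD.Field
import Pool.Agent.Helper63_PD.Num
import Pool.Prelude.Def_F_692dd254

/-!
# Assembly
-/

set_option autoImplicit false

namespace Pool.Agent.PD

open Configuration Finset SimpleGraph Filter

open Classical in
theorem f_mem (n : ℕ) : ∀ G : SimpleGraph (Fin n), N73277a7f.f n ≤ G.minDegree →
    (cycleGraph 4).IsContained G := by
  have h : {k : ℕ | ∀ (G : SimpleGraph (Fin n)), G.minDegree ≥ k →
      (cycleGraph 4).IsContained G}.Nonempty := by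
    refine ⟨n + 1, fun G hG => ?_⟩
    exfalso
    rcases Nat.eq_zero_or_pos n with rfl | hn
    · have : G.minDegree = 0 := by
        have h1 : IsEmpty (Fin 0) := inferInstance
        simp [SimpleGraph.minDegree]
      omega
    · have : Nonempty (Fin n) := ⟨⟨0, hn⟩⟩
      have h1 := G.minDegree_lt_card
      rw [Fintype.card_fin] at h1
      omega
  intro G hG
  exact Nat.sInf_mem h G hG

open Classical in
theorem fNear_mem (r : ℕ) (c : ℝ) (n : ℕ) : ∀ G : SimpleGraph (Fin n), NearPlane r c G →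
    fNear r c n ≤ G.minDegree → (cycleGraph 4).IsContained G := by
  have h : {k : ℕ | ∀ G : SimpleGraph (Fin n), NearPlane r c G → k ≤ G.minDegree →
      (cycleGraph 4).IsContained G}.Nonempty :=
    ⟨N73277a7f.f n, fun G _ hG => f_mem n G hG⟩
  intro G hG
  exact Nat.sInf_mem h G hG

theorem fNear_le (r : ℕ) (c : ℝ) (n : ℕ) : fNear r c n ≤ N73277a7f.f n :=
  Nat.sInf_le fun G _ hG => f_mem n G hG

open Classical in
theorem f_le (q : ℕ) (hq : 2 ≤ q) : N73277a7f.f (q ^ 2 + q + 1) ≤ q + 1 :=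
  Nat.sInf_le fun G hG => c4_of_deg q hq G hG

theorem le_fNear (q : ℕ) (hq : 22 ≤ q) (K : Type) [Field K] [Finite K]
    (hK : Nat.card K = q) (r : ℕ) (c : ℝ) (hc : 0 ≤ c) : q + 1 ≤ fNear r c (q ^ 2 + q + 1) := by
  classical
  by_contra hcon
  push Not at hcon
  obtain ⟨G, hG, hdeg, hC⟩ := field_c4 q hq K hK r c hc
  refine hC (fNear_mem r c (q ^ 2 + q + 1) G hG ?_)
  have : Nonempty (Fin (q ^ 2 + q + 1)) := ⟨⟨0, by positivity⟩⟩
  refine SimpleGraph.le_minDegree_of_forall_le_degree G _ fun v => ?_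
  have h1 := hdeg v
  rw [← SimpleGraph.card_neighborFinset_eq_degree, SimpleGraph.neighborFinset_def,
    ← Set.ncard_eq_toFinset_card']
  omega

open Classical in
theorem fNear_lt (q : ℕ) (hq : 40 ≤ q) (hq36 : q % 36 = 5) (r : ℕ) (hqr : 7 * (r + 1) ^ 3 ≤ q)
    (δ ε : ℝ) (hδ : 0 ≤ δ) (hε : 0 < ε) (hδε : δ + ε ≤ 1) (hqr' : 12 * (r : ℝ) ≤ ε * q)
    (hqε : 64 < (q : ℝ) * ε ^ 2) (m : ℕ) (hm : q ^ 2 + q + 1 < m)
    (hm' : (m : ℝ) ≤ (q : ℝ) ^ 2 + q + 1 + (1 - δ - ε) * Real.sqrt ((q : ℝ) ^ 2 + q + 1)) :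
    fNear r (δ / 2) m ≤ q := by
  refine Nat.sInf_le fun G hP hG => ?_
  by_contra hC
  obtain ⟨P, L, fP, fL, _, _, W, D, p, l, hQ, hW, hDE, hD, hp, hl, hadj⟩ := hP
  have : Fintype P := Fintype.ofFinite P
  have : Fintype L := Fintype.ofFinite L
  have h : Conf G D W p l q r := conf_of hG hC hW hD hp hl hadj
  set Q := ProjectivePlane.order P L with hQdef
  have hQ1 : 1 < Q := ProjectivePlane.one_lt_order P L
  -- the number of vertices
  have hmle : m ≤ q ^ 2 + 2 * q + 1 := by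
    have h1 : (1 - δ - ε) * Real.sqrt ((q : ℝ) ^ 2 + q + 1) ≤ 1 * (q + 1) - ε * 1 := by
      have h2 : (1 - δ - ε) * Real.sqrt ((q : ℝ) ^ 2 + q + 1) ≤ (1 - δ - ε) * (q + 1) :=
        mul_le_mul_of_nonneg_left (sqrt_bound q) (by linarith)
      have h3 : (0 : ℝ) ≤ q := Nat.cast_nonneg q
      nlinarith
    have h2 : (m : ℝ) < (q : ℝ) ^ 2 + 2 * q + 2 := by linarith
    have h3 : m < q ^ 2 + 2 * q + 2 := by exact_mod_cast h2
    omega
  have hcard : Fintype.card (Fin m) = m := Fintype.card_fin m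
  rcases lt_trichotomy Q (q + 1) with h3 | h3 | h3
  · rcases Nat.lt_or_ge Q q with h4 | h4
    · -- too few points
      have h5 := h.card_im
      have h6 : (Conf.im W p).card ≤ Q ^ 2 + Q + 1 := by
        rw [hQdef, ← ProjectivePlane.card_points P L]
        exact Finset.card_le_univ _
      rw [hcard] at h5
      have h7 : r < q := by
        have h8 : r + 1 ≤ (r + 1) ^ 3 := Nat.le_self_pow (by norm_num) _
        omega
      obtain ⟨t, rfl⟩ : ∃ t, q = t + 1 := ⟨q - 1, by omega⟩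
      have h9 : Q ^ 2 + Q + 1 ≤ t ^ 2 + t + 1 := by
        have : Q ≤ t := by omega
        nlinarith
      nlinarith
    · -- order `q`
      have h5 : ProjectivePlane.order P L = q := by omega
      exact h.eq_case h5 (by rw [hcard]; exact hm) hqr
  · refine no_plane (P := P) (L := L) ?_
    rw [← hQdef]
    omega
  · have hs : 0 < Real.sqrt Q := Real.sqrt_pos.mpr (by exact_mod_cast (by omega : 0 < Q))
    have hsq : Real.sqrt Q ^ 2 = Q := Real.sq_sqrt (Nat.cast_nonneg Q)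
    have hE : ((∑ v, (D.neighborSet v).ncard : ℕ) : ℝ) ≤ δ * Fintype.card (Fin m) := by
      rw [sum_degD, hcard]
      push_cast
      linarith
    have h4 := h.spec hs hsq (by omega) (by rw [hcard]; exact hmle) (by rw [hcard]; exact hm)
      hδ hε hδε hE hqr'
    rw [hcard] at h4
    refine num q m δ ε (Real.sqrt Q) hδ hε hδε hq hqε ?_ hQ hm' h4
    rw [hsq]
    exact_mod_cast (by omega : q + 2 ≤ Q)

theorem main (r : ℕ) (c : ℝ) (hc : 0 ≤ c) (hc2 : c < 1 / 2) (ε : ℝ) (hε : 0 < ε) :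
    ∃ᶠ n : ℕ in atTop, fNear r c n = N73277a7f.f n ∧
      ∀ m : ℕ, n < m → (m : ℝ) ≤ n + (1 - 2 * c - ε) * Real.sqrt n →
        fNear r c m < fNear r c n := by
  rw [Filter.frequently_atTop]
  intro N
  set δ : ℝ := 2 * c with hδ
  set ζ : ℝ := min ε (1 - δ) with hζ
  have hδ0 : 0 ≤ δ := by linarith
  have hζ0 : 0 < ζ := lt_min hε (by linarith)
  have hζ1 : δ + ζ ≤ 1 := by
    have : ζ ≤ 1 - δ := min_le_right _ _
    linarith
  have hζε : ζ ≤ ε := min_le_left _ _
  obtain ⟨j, hj⟩ : ∃ j : ℕ, max (max (max 40 (N : ℝ)) (64 / ζ ^ 2))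
      (max (12 * (r : ℝ) / ζ) (7 * ((r : ℝ) + 1) ^ 3)) < (j : ℝ) := exists_nat_gt _
  set q : ℕ := 5 ^ (6 * j + 1) with hq
  have hjq : j < q := by
    calc j < 2 ^ j := Nat.lt_two_pow_self
      _ ≤ 5 ^ j := Nat.pow_le_pow_left (by norm_num) j
      _ ≤ q := Nat.pow_le_pow_right (by norm_num) (by omega)
  have hjq' : (j : ℝ) < q := by exact_mod_cast hjq
  have hj1 := lt_of_le_of_lt (le_max_left _ _) hj
  have hj2 := lt_of_le_of_lt (le_max_right _ _) hj
  have h40 : (40 : ℝ) < j := lt_of_le_of_lt ((le_max_left _ _).trans (le_max_left _ _)) hj1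
  have hN : (N : ℝ) < j := lt_of_le_of_lt ((le_max_right _ _).trans (le_max_left _ _)) hj1
  have h17 : 64 / ζ ^ 2 < (j : ℝ) := lt_of_le_of_lt (le_max_right _ _) hj1
  have h12 : 12 * (r : ℝ) / ζ < (j : ℝ) := lt_of_le_of_lt (le_max_left _ _) hj2
  have h7 : 7 * ((r : ℝ) + 1) ^ 3 < (j : ℝ) := lt_of_le_of_lt (le_max_right _ _) hj2
  have hq40 : 40 ≤ q := by
    have : (40 : ℝ) < q := h40.trans hjq'
    have : 40 < q := by exact_mod_cast this
    omega
  have hqε : 64 < (q : ℝ) * ζ ^ 2 := by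
    have : 64 / ζ ^ 2 < (q : ℝ) := h17.trans hjq'
    rwa [div_lt_iff₀ (by positivity)] at this
  have hqr' : 12 * (r : ℝ) ≤ ζ * q := by
    have : 12 * (r : ℝ) / ζ < (q : ℝ) := h12.trans hjq'
    rw [div_lt_iff₀ hζ0] at this
    linarith
  have hqr : 7 * (r + 1) ^ 3 ≤ q := by
    have : 7 * ((r : ℝ) + 1) ^ 3 < (q : ℝ) := h7.trans hjq'
    have : 7 * (r + 1) ^ 3 < q := by exact_mod_cast this
    omega
  have hq36 : q % 36 = 5 := by
    have h1 : 5 ^ 6 % 36 = 1 := by norm_num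
    rw [hq, pow_add, pow_mul, Nat.mul_mod, Nat.pow_mod, h1]
    simp
  have : Fact (Nat.Prime 5) := ⟨by norm_num⟩
  have hcard : Nat.card (GaloisField 5 (6 * j + 1)) = q := GaloisField.card 5 _ (by omega)
  have : Finite (GaloisField 5 (6 * j + 1)) := by
    apply Nat.finite_of_card_ne_zero
    rw [hcard]
    omega
  have hlow := le_fNear q (by omega) (GaloisField 5 (6 * j + 1)) hcard r c hc
  have hup := f_le q (by omega)
  have hmid := fNear_le r c (q ^ 2 + q + 1)
  refine ⟨q ^ 2 + q + 1, ?_, by omega, fun m hm hm' => ?_⟩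
  · have : N < q := by
      have : (N : ℝ) < q := hN.trans hjq'
      exact_mod_cast this
    nlinarith
  · have hcδ : c = δ / 2 := by rw [hδ]; ring
    have h1 : fNear r (δ / 2) m ≤ q := by
      refine fNear_lt q hq40 hq36 r hqr δ ζ hδ0 hζ0 hζ1 hqr' hqε m hm ?_
      push_cast at hm'
      refine hm'.trans ?_
      have : (1 - δ - ε) * Real.sqrt ((q : ℝ) ^ 2 + q + 1) ≤
          (1 - δ - ζ) * Real.sqrt ((q : ℝ) ^ 2 + q + 1) :=
        mul_le_mul_of_nonneg_right (by linarith) (Real.sqrt_nonneg _)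
      linarith
    rw [← hcδ] at h1
    omega

end Pool.Agent.PD
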