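import Pool.Agent.Helper63_PD.Plane

/-!
# The theorem of Bruck and Ryser
-/

set_option autoImplicit false

namespace Pool.Agent.PD

open Configuration Finset

/-- Elimination: for `m` linear forms `L i` in the variables `y 0, ..., y m` there is a vector `y`
with last coordinate one and `L i y = ± y i` for all `i < m`. -/
theorem elim : ∀ (m : ℕ) (L : Fin m → ((Fin (m + 1) → ℚ) →ₗ[ℚ] ℚ)),
    ∃ y : Fin (m + 1) → ℚ, y (Fin.last m) = 1 ∧ ∀ i, L i y ^ 2 = y i.castSucc ^ 2 := by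
  intro m
  induction m with
  | zero =>
    intro L
    exact ⟨fun _ => 1, rfl, fun i => i.elim0⟩
  | succ m ih =>
    intro L
    -- the coefficient of `y 0` in `L 0`
    set c : ℚ := L 0 (Pi.single 0 1) with hc
    -- the rest
    let emb0 : (Fin (m + 1) → ℚ) →ₗ[ℚ] (Fin (m + 2) → ℚ) :=
      { toFun := fun y => Fin.cons 0 y
        map_add' := by
          intro x y
          ext i
          refine Fin.cases ?_ (fun j => ?_) i
          · simp
          · simp
        map_smul' := by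
          intro a x
          ext i
          refine Fin.cases ?_ (fun j => ?_) i
          · simp
          · simp }
    obtain ⟨ε, hε, hεc⟩ : ∃ ε : ℚ, ε ^ 2 = 1 ∧ ε - c ≠ 0 := by
      by_cases h : c = 1
      · exact ⟨-1, by norm_num, by rw [h]; norm_num⟩
      · exact ⟨1, by norm_num, sub_ne_zero.mpr (Ne.symm h)⟩
    let ι : (Fin (m + 1) → ℚ) →ₗ[ℚ] (Fin (m + 2) → ℚ) :=
      emb0 + (LinearMap.toSpanSingleton ℚ (Fin (m + 2) → ℚ) (Pi.single 0 1)).comp
        ((ε - c)⁻¹ • (L 0).comp emb0)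
    have hι : ∀ y, ι y = Fin.cons ((ε - c)⁻¹ * L 0 (Fin.cons 0 y)) y := by
      intro y
      ext i
      refine Fin.cases ?_ (fun j => ?_) i
      · simp [ι, emb0]
      · simp [ι, emb0]
    obtain ⟨y, hy1, hy2⟩ := ih fun i => (L i.succ).comp ι
    refine ⟨ι y, ?_, ?_⟩
    · rw [hι, ← Fin.succ_last, Fin.cons_succ]
      exact hy1
    · intro i
      refine Fin.cases ?_ (fun j => ?_) i
      · have h1 : (ι y : Fin (m + 2) → ℚ) = Fin.cons 0 y +
            ((ε - c)⁻¹ * L 0 (Fin.cons 0 y)) • Pi.single 0 1 := by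
          rw [hι]
          ext i
          refine Fin.cases ?_ (fun j => ?_) i
          · simp
          · simp
        have h2 : L 0 (ι y) = ε * ((ε - c)⁻¹ * L 0 (Fin.cons 0 y)) := by
          rw [h1, map_add, map_smul, ← hc, smul_eq_mul]
          field_simp
          ring
        have h3 : ι y (Fin.castSucc 0) = (ε - c)⁻¹ * L 0 (Fin.cons 0 y) := by
          rw [hι, Fin.castSucc_zero, Fin.cons_zero]
        rw [h2, h3, mul_pow, hε, one_mul]
      · have h1 := hy2 j
        rw [LinearMap.comp_apply] at h1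
        rw [h1, hι, ← Fin.succ_castSucc, Fin.cons_succ]

/-- A linear map which multiplies the sum of four squares by `1 / Q`. -/
theorem four (Q : ℕ) (hQ : 0 < Q) : ∃ T : (Fin 4 → ℚ) →ₗ[ℚ] (Fin 4 → ℚ),
    ∀ y, (Q : ℚ) * ∑ i, T y i ^ 2 = ∑ i, y i ^ 2 := by
  obtain ⟨a, b, c, d, h⟩ := Nat.sum_four_squares Q
  have hq : (a : ℚ) ^ 2 + (b : ℚ) ^ 2 + (c : ℚ) ^ 2 + (d : ℚ) ^ 2 = Q := by exact_mod_cast h
  have hQ' : (Q : ℚ) ≠ 0 := by exact_mod_cast hQ.ne'
  let M : Matrix (Fin 4) (Fin 4) ℚ := !![(a : ℚ), b, c, d; -b, a, -d, c; -c, d, a, -b; -d, -c, b, a]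
  refine ⟨(Q : ℚ)⁻¹ • M.mulVecLin, fun y => ?_⟩
  have h1 : ∑ i, (M.mulVec y i) ^ 2 = Q * ∑ i, y i ^ 2 := by
    simp only [M, Matrix.mulVec, dotProduct, Fin.sum_univ_four, Matrix.of_apply,
      Matrix.cons_val', Matrix.cons_val_zero, Matrix.cons_val_one, Matrix.cons_val,
      Matrix.empty_val', Matrix.cons_val_fin_one]
    rw [← hq]
    ring
  have h2 : ∀ i, ((Q : ℚ)⁻¹ • M.mulVecLin) y i ^ 2 = ((Q : ℚ)⁻¹) ^ 2 * (M.mulVec y i) ^ 2 := by
    intro i
    rw [LinearMap.smul_apply, Pi.smul_apply, smul_eq_mul, Matrix.mulVecLin_apply, mul_pow]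
  rw [Finset.sum_congr rfl fun i _ => h2 i, ← Finset.mul_sum, h1]
  field_simp

/-- The same for `4 t` variables. -/
theorem fourt (Q : ℕ) (hQ : 0 < Q) (N t : ℕ) (hN : N = t * 4) :
    ∃ T : (Fin N → ℚ) →ₗ[ℚ] (Fin N → ℚ),
      ∀ y, (Q : ℚ) * ∑ i, T y i ^ 2 = ∑ i, y i ^ 2 := by
  obtain ⟨T, hT⟩ := four Q hQ
  subst hN
  let e : Fin t × Fin 4 ≃ Fin (t * 4) := finProdFinEquiv
  let U : (Fin (t * 4) → ℚ) →ₗ[ℚ] (Fin (t * 4) → ℚ) :=
    { toFun := fun y i => T (fun j => y (e ((e.symm i).1, j))) (e.symm i).2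
      map_add' := fun x y => funext fun i =>
        congrFun (map_add T (fun j => x (e ((e.symm i).1, j))) (fun j => y (e ((e.symm i).1, j))))
          (e.symm i).2
      map_smul' := fun a x => funext fun i =>
        congrFun (map_smul T a (fun j => x (e ((e.symm i).1, j)))) (e.symm i).2 }
  refine ⟨U, fun y => ?_⟩
  rw [← Equiv.sum_comp e fun i => U y i ^ 2, ← Equiv.sum_comp e fun i => y i ^ 2,
    Fintype.sum_prod_type, Fintype.sum_prod_type, Finset.mul_sum]
  refine Finset.sum_congr rfl fun i _ => ?_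
  rw [← hT fun j => y (e (i, j))]
  congr 1
  refine Finset.sum_congr rfl fun j _ => ?_
  change (T (fun j' => y (e ((e.symm (e (i, j))).1, j'))) (e.symm (e (i, j))).2) ^ 2 = _
  rw [Equiv.symm_apply_apply]

/-- Bruck and Ryser: if the number `Q ^ 2 + Q + 1` of points of a projective plane of order `Q` is
`3` modulo `4`, then `Q` times a rational square is one plus a rational square. -/
theorem bruck_ryser {P L : Type} [Fintype P] [Fintype L] [Membership P L] [ProjectivePlane P L]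
    (h4 : ∃ t, Fintype.card P + 1 = t * 4) :
    ∃ c w : ℚ, (ProjectivePlane.order P L : ℚ) * c ^ 2 = 1 + w ^ 2 := by
  classical
  obtain ⟨t, ht⟩ := h4
  set Q := ProjectivePlane.order P L with hQdef
  have hQ : 0 < Q := lt_trans one_pos (ProjectivePlane.one_lt_order P L)
  set N := Fintype.card P with hNdef
  obtain ⟨T, hT⟩ := fourt Q hQ (N + 1) t ht
  let eP : P ≃ Fin N := Fintype.equivFin P
  let eL : L ≃ Fin N := (Fintype.equivFin L).trans
    (finCongr (ProjectivePlane.card_points_eq_card_lines P L).symm)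
  -- the linear forms
  let F : Fin N → ((Fin (N + 1) → ℚ) →ₗ[ℚ] ℚ) := fun i =>
    ∑ p : P, if p ∈ eL.symm i then (LinearMap.proj (eP p).castSucc).comp T else 0
  have hF : ∀ i y, F i y = ∑ p : P, if p ∈ eL.symm i then T y (eP p).castSucc else 0 := by
    intro i y
    simp only [F, LinearMap.sum_apply]
    refine Finset.sum_congr rfl fun p _ => ?_
    split_ifs <;> simp
  obtain ⟨y, hy1, hy2⟩ := elim N F
  refine ⟨T y (Fin.last N), ∑ p : P, T y (eP p).castSucc, ?_⟩
  have h1 : ∑ i, F i y ^ 2 = (Q : ℚ) * ∑ p : P, T y (eP p).castSucc ^ 2 +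
      (∑ p : P, T y (eP p).castSucc) ^ 2 := by
    rw [← sum_sq (L := L) fun p : P => T y (eP p).castSucc, ← Equiv.sum_comp eL]
    refine Finset.sum_congr rfl fun l _ => ?_
    rw [hF, Equiv.symm_apply_apply]
  have h2 := hT y
  rw [Fin.sum_univ_castSucc, Fin.sum_univ_castSucc, hy1] at h2
  have h3 : ∑ p : P, T y (eP p).castSucc ^ 2 = ∑ i : Fin N, T y i.castSucc ^ 2 :=
    Equiv.sum_comp eP fun i => T y i.castSucc ^ 2
  have h4 : ∑ i, F i y ^ 2 = ∑ i : Fin N, y i.castSucc ^ 2 :=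
    Finset.sum_congr rfl fun i _ => hy2 i
  rw [h3, h4] at h1
  linear_combination h2 + h1

end Pool.Agent.PD
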