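import Pool.Agent.Helper63_PD.Defs

/-!
# No graph with `q ^ 2 + q + 1` vertices and minimum degree `q + 1` is free of four-cycles
-/

set_option autoImplicit false

namespace Pool.Agent.PD

open Finset Matrix

theorem friend {V : Type} [Fintype V] [DecidableEq V] (G : SimpleGraph V) [DecidableRel G.Adj]
    (q : ℕ) (hq : 2 ≤ q) (hcard : Fintype.card V = q ^ 2 + q + 1)
    (hdeg : ∀ v, q + 1 ≤ G.degree v)
    (hC : ∀ u v, u ≠ v → (G.neighborFinset u ∩ G.neighborFinset v).card ≤ 1) : False := by
  -- double counting
  have h1 : ∀ v, ∑ w ∈ G.neighborFinset v, G.degree w =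
      ∑ u, (G.neighborFinset v ∩ G.neighborFinset u).card := by
    intro v
    have h2 : ∀ w, G.degree w = ∑ u, if G.Adj w u then 1 else 0 := by
      intro w
      rw [← Finset.card_filter, ← SimpleGraph.card_neighborFinset_eq_degree]
      congr 1
      ext u
      simp
    simp_rw [h2]
    rw [Finset.sum_comm]
    refine Finset.sum_congr rfl fun u _ => ?_
    rw [← Finset.card_filter]
    congr 1
    ext w
    simp [SimpleGraph.adj_comm]
  have hsplit : ∀ v, ∑ u, (G.neighborFinset v ∩ G.neighborFinset u).card =
      G.degree v + ∑ u ∈ univ.erase v, (G.neighborFinset v ∩ G.neighborFinset u).card := by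
    intro v
    rw [← Finset.add_sum_erase univ _ (Finset.mem_univ v), Finset.inter_self,
      SimpleGraph.card_neighborFinset_eq_degree]
  have hle : ∀ v, ∑ u ∈ univ.erase v, (G.neighborFinset v ∩ G.neighborFinset u).card ≤
      q ^ 2 + q := by
    intro v
    calc ∑ u ∈ univ.erase v, (G.neighborFinset v ∩ G.neighborFinset u).card
        ≤ ∑ _u ∈ univ.erase v, 1 :=
          Finset.sum_le_sum fun u hu => hC v u (Finset.ne_of_mem_erase hu).symm
      _ = q ^ 2 + q := by
          rw [Finset.sum_const, smul_eq_mul, mul_one, Finset.card_erase_of_mem (Finset.mem_univ v),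
            Finset.card_univ, hcard]
          rfl
  have hge : ∀ v, G.degree v * (q + 1) ≤ ∑ w ∈ G.neighborFinset v, G.degree w := by
    intro v
    rw [← SimpleGraph.card_neighborFinset_eq_degree, ← smul_eq_mul]
    exact Finset.card_nsmul_le_sum _ _ _ fun w _ => hdeg w
  have hreg : ∀ v, G.degree v = q + 1 := by
    intro v
    refine le_antisymm ?_ (hdeg v)
    have h3 := hge v
    rw [h1, hsplit] at h3
    have h4 := hle v
    by_contra hcon
    push Not at hcon
    have h5 : q + 2 ≤ G.degree v := hcon
    nlinarith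
  have hone : ∀ u v, u ≠ v → (G.neighborFinset u ∩ G.neighborFinset v).card = 1 := by
    intro v u hvu
    have h3 := hge v
    rw [h1, hsplit, hreg] at h3
    have h4 : q ^ 2 + q ≤ ∑ u ∈ univ.erase v, (G.neighborFinset v ∩ G.neighborFinset u).card := by
      nlinarith
    by_contra hcon
    have h5 : (G.neighborFinset v ∩ G.neighborFinset u).card < 1 :=
      lt_of_le_of_ne (hC v u hvu) hcon
    have h6 : ∑ u ∈ univ.erase v, (G.neighborFinset v ∩ G.neighborFinset u).card <
        ∑ _u ∈ univ.erase v, 1 :=
      Finset.sum_lt_sum (fun u hu => hC v u (Finset.ne_of_mem_erase hu).symm)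
        ⟨u, Finset.mem_erase.mpr ⟨hvu.symm, Finset.mem_univ u⟩, h5⟩
    rw [Finset.sum_const, smul_eq_mul, mul_one, Finset.card_erase_of_mem (Finset.mem_univ v),
      Finset.card_univ, hcard] at h6
    omega
  -- a prime factor of `q`
  obtain ⟨p, hp, hpq⟩ := Nat.exists_prime_and_dvd (by omega : q ≠ 1)
  have : Fact p.Prime := ⟨hp⟩
  have hq0 : (q : ZMod p) = 0 := (ZMod.natCast_eq_zero_iff q p).mpr hpq
  set A : Matrix V V (ZMod p) := G.adjMatrix (ZMod p) with hA
  let J : Matrix V V (ZMod p) := Matrix.of fun _ _ => 1
  have hAA : A ^ 2 = J := by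
    ext u v
    rw [sq, Matrix.mul_apply]
    have h7 : ∑ w, A u w * A w v = ((G.neighborFinset u ∩ G.neighborFinset v).card : ZMod p) := by
      have h8 : (G.neighborFinset u ∩ G.neighborFinset v) =
          univ.filter fun w => G.Adj u w ∧ G.Adj w v := by
        ext w
        simp [SimpleGraph.adj_comm]
      rw [h8, Finset.card_filter, Nat.cast_sum]
      refine Finset.sum_congr rfl fun w _ => ?_
      by_cases h : G.Adj u w <;> by_cases h' : G.Adj w v <;> simp [hA, h, h']
    rw [h7]
    by_cases huv : u = v
    · subst huv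
      rw [Finset.inter_self, SimpleGraph.card_neighborFinset_eq_degree, hreg]
      push_cast
      rw [hq0]
      simp [J]
    · rw [hone u v huv]
      simp [J]
  have hAJ : A * J = J := by
    ext u v
    rw [Matrix.mul_apply]
    have h7 : ∑ w, A u w * J w v = (G.degree u : ZMod p) := by
      have h8 : G.neighborFinset u = univ.filter fun w => G.Adj u w := by
        ext w
        simp
      rw [← SimpleGraph.card_neighborFinset_eq_degree, h8, Finset.card_filter, Nat.cast_sum]
      refine Finset.sum_congr rfl fun w _ => ?_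
      by_cases h : G.Adj u w <;> simp [hA, J, h]
    rw [h7, hreg]
    push_cast
    rw [hq0]
    simp [J]
  have hpow : ∀ k : ℕ, A ^ (k + 2) = J := by
    intro k
    induction k with
    | zero => simpa using hAA
    | succ k ih =>
      rw [show k + 1 + 2 = (k + 2) + 1 by ring, pow_succ', ih, hAJ]
  have htr := ZMod.trace_pow_card A
  obtain ⟨m, hm⟩ : ∃ m, p = m + 2 := ⟨p - 2, by have := hp.two_le; omega⟩
  have h9 : A ^ p = J := by
    have := hpow m
    rwa [← hm] at this
  rw [h9, SimpleGraph.trace_adjMatrix, zero_pow hp.ne_zero] at htr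
  have h10 : J.trace = (Fintype.card V : ZMod p) := by
    simp [Matrix.trace, J]
  rw [h10, hcard] at htr
  push_cast at htr
  rw [hq0] at htr
  simp at htr

end Pool.Agent.PD
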