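import Pool.Agent.Helper63_PD.BR

/-!
# There is no projective plane of order `Q` if `Q` is `6` modulo `36`
-/

set_option autoImplicit false

namespace Pool.Agent.PD

open Configuration Finset

theorem no_rat (Q : ℕ) (hQ : Q % 9 = 6) (c w : ℚ) : (Q : ℚ) * c ^ 2 ≠ 1 + w ^ 2 := by
  intro h
  set D : ℕ := c.den * w.den with hD
  set Z : ℕ := c.num.natAbs * w.den with hZ
  set Y : ℕ := w.num.natAbs * c.den with hY
  have hc : (c.den : ℚ) ≠ 0 := by exact_mod_cast c.den_nz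
  have hw : (w.den : ℚ) ≠ 0 := by exact_mod_cast w.den_nz
  have h1 : Q * Z ^ 2 = D ^ 2 + Y ^ 2 := by
    have h2 : ((Q * Z ^ 2 : ℕ) : ℚ) = ((D ^ 2 + Y ^ 2 : ℕ) : ℚ) := by
      have hcn : ((c.num.natAbs : ℕ) : ℚ) ^ 2 = (c.num : ℚ) ^ 2 := by
        rw [Nat.cast_natAbs, Int.cast_abs, sq_abs]
      have hwn : ((w.num.natAbs : ℕ) : ℚ) ^ 2 = (w.num : ℚ) ^ 2 := by
        rw [Nat.cast_natAbs, Int.cast_abs, sq_abs]
      have hcq : (c.num : ℚ) = c * c.den := (Rat.mul_den_eq_num c).symm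
      have hwq : (w.num : ℚ) = w * w.den := (Rat.mul_den_eq_num w).symm
      rw [hD, hZ, hY]
      push_cast
      rw [mul_pow, mul_pow, mul_pow, hcn, hwn, hcq, hwq]
      linear_combination (c.den : ℚ) ^ 2 * (w.den : ℚ) ^ 2 * h
    exact_mod_cast h2
  have hD0 : 0 < D := Nat.mul_pos c.den_pos w.den_pos
  have hn0 : Q * Z ^ 2 ≠ 0 := by
    rw [h1]
    positivity
  have hZ0 : Z ≠ 0 := by
    rintro h2
    rw [h2] at hn0
    simp at hn0
  have hQ0 : Q ≠ 0 := by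
    rintro h2
    rw [h2] at hn0
    simp at hn0
  have h3 : 3 ∣ Q := by omega
  have hp : Nat.Prime 3 := Nat.prime_three
  have : Fact (Nat.Prime 3) := ⟨hp⟩
  have h4 := (Nat.eq_sq_add_sq_iff.mp ⟨D, Y, h1⟩) 3
    (Nat.mem_primeFactors.mpr ⟨hp, h3.mul_right _, hn0⟩) (by norm_num)
  have h5 : padicValNat 3 Q = 1 := by
    have h6 : padicValNat 3 Q < 2 := by
      by_contra hcon
      push Not at hcon
      have h7 : 3 ^ 2 ∣ Q := (padicValNat_dvd_iff_le hQ0).mpr hcon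
      omega
    have h7 : 1 ≤ padicValNat 3 Q := one_le_padicValNat_of_dvd hQ0 h3
    omega
  rw [padicValNat.mul hQ0 (pow_ne_zero 2 hZ0), h5, padicValNat.pow] at h4
  obtain ⟨r, hr⟩ := h4
  omega

theorem no_plane {P L : Type} [Fintype P] [Fintype L] [Membership P L] [ProjectivePlane P L]
    (h : ProjectivePlane.order P L % 36 = 6) : False := by
  obtain ⟨c, w, hcw⟩ := bruck_ryser (P := P) (L := L) (by
    rw [ProjectivePlane.card_points P L]
    obtain ⟨a, ha⟩ : ∃ a, ProjectivePlane.order P L = 4 * a + 2 :=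
      ⟨ProjectivePlane.order P L / 4, by omega⟩
    rw [ha]
    exact ⟨4 * a ^ 2 + 5 * a + 2, by ring⟩)
  exact no_rat _ (by omega) c w hcw

end Pool.Agent.PD
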