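import Pool.Agent.Helper63_PD.Spec
import Pool.Agent.Helper63_PD.NoPlane
import Pool.Agent.Helper63_PD.Friend

/-!
# Four-cycles; the field planes; the upper bound for polarity graphs
-/

set_option autoImplicit false

namespace Pool.Agent.PD

open Configuration Finset SimpleGraph

theorem c4_of_common {V : Type} (G : SimpleGraph V) {u v w w' : V} (huv : u ≠ v) (hww : w ≠ w')
    (h1 : G.Adj u w) (h2 : G.Adj u w') (h3 : G.Adj v w) (h4 : G.Adj v w') :
    (cycleGraph 4).IsContained G := by
  let φ : Fin 4 → V := ![u, w, v, w']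
  have hadj : ∀ a b : Fin 4, (cycleGraph 4).Adj a b → G.Adj (φ a) (φ b) := by
    intro a b hab
    rw [cycleGraph_adj] at hab
    fin_cases a <;> fin_cases b <;> simp [φ] at hab ⊢ <;>
      first
        | exact h1
        | exact h1.symm
        | exact h2
        | exact h2.symm
        | exact h3
        | exact h3.symm
        | exact h4
        | exact h4.symm
        | (exfalso; revert hab; decide)
  have hinj : Function.Injective φ := by
    intro a b hab
    fin_cases a <;> fin_cases b <;> simp [φ] at hab ⊢ <;>
      first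
        | exact huv hab
        | exact huv hab.symm
        | exact hww hab
        | exact hww hab.symm
        | exact h1.ne hab
        | exact h1.ne hab.symm
        | exact h2.ne hab
        | exact h2.ne hab.symm
        | exact h3.ne hab
        | exact h3.ne hab.symm
        | exact h4.ne hab
        | exact h4.ne hab.symm
  exact ⟨⟨⟨φ, fun {a b} h => hadj a b h⟩, hinj⟩⟩

open Classical in
/-- The configuration of a graph without four-cycles which nearly lies in a plane. -/
theorem conf_of {P L : Type} [Membership P L] {n : ℕ} {G D : SimpleGraph (Fin n)}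
    {W : Finset (Fin n)} {p : Fin n → P} {l : Fin n → L} {q r : ℕ} (hk : q ≤ G.minDegree)
    (hC : ¬ (cycleGraph 4).IsContained G) (hW : W.card ≤ r)
    (hD : ∀ v, (D.neighborSet v).ncard ≤ r) (hp : Set.InjOn p {v | v ∉ W})
    (hl : Set.InjOn l {v | v ∉ W})
    (hG : ∀ u v, u ∉ W → v ∉ W → G.Adj u v → ¬ D.Adj u v → p u ∈ l v) :
    Conf G D W p l q r where
  c4 := fun u v w w' huv h1 h2 h3 h4 => by
    by_contra hne
    exact hC (c4_of_common G huv hne h1 h3 h2 h4)
  deg := fun v => by
    refine (hk.trans (G.minDegree_le_degree v)).trans (le_of_eq ?_)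
    rw [Set.ncard_eq_toFinset_card', ← SimpleGraph.card_neighborFinset_eq_degree]
    rfl
  degD := hD
  cardW := hW
  injp := hp
  injl := hl
  inc := hG

theorem sum_degD {n : ℕ} (D : SimpleGraph (Fin n)) :
    ∑ v, (D.neighborSet v).ncard = 2 * D.edgeSet.ncard := by
  classical
  have h1 := D.sum_degrees_eq_twice_card_edges
  have h2 : D.edgeSet.ncard = D.edgeFinset.card := by
    rw [Set.ncard_eq_toFinset_card']
    rfl
  rw [h2, ← h1]
  refine Finset.sum_congr rfl fun v _ => ?_
  rw [Set.ncard_eq_toFinset_card', ← SimpleGraph.card_neighborFinset_eq_degree]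
  rfl

/-- `f ≤ q + 1` for `q ^ 2 + q + 1` vertices. -/
theorem c4_of_deg (q : ℕ) (hq : 2 ≤ q) (G : SimpleGraph (Fin (q ^ 2 + q + 1)))
    [DecidableRel G.Adj] (hk : q + 1 ≤ G.minDegree) : (cycleGraph 4).IsContained G := by
  classical
  by_contra hcon
  refine friend G q hq (by simp) (fun v => hk.trans (G.minDegree_le_degree v)) fun u v huv => ?_
  by_contra hcard
  push Not at hcard
  obtain ⟨w, hw, w', hw', hne⟩ := Finset.one_lt_card.mp hcard
  rw [Finset.mem_inter, SimpleGraph.mem_neighborFinset, SimpleGraph.mem_neighborFinset] at hw hw'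
  exact hcon (c4_of_common G huv hne hw.1 hw'.1 hw.2 hw'.2)

end Pool.Agent.PD
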