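import Pool.Agent.Helper63_PD.Plane

/-!
# Graphs which nearly lie in a plane: counting
-/

set_option autoImplicit false

namespace Pool.Agent.PD

open Configuration Finset

/-- A graph `G` without four-cycles, of minimum degree at least `q`, which lies in a plane after
deleting the vertices in `W`, at most `r`, and the edges of `D`, at most `r` at each vertex. -/
structure Conf {V P L : Type} [Membership P L] (G D : SimpleGraph V) (W : Finset V)
    (p : V → P) (l : V → L) (q r : ℕ) : Prop where
  c4 : ∀ u v w w', u ≠ v → G.Adj u w → G.Adj v w → G.Adj u w' → G.Adj v w' → w = w'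
  deg : ∀ v, q ≤ (G.neighborSet v).ncard
  degD : ∀ v, (D.neighborSet v).ncard ≤ r
  cardW : W.card ≤ r
  injp : Set.InjOn p {v | v ∉ W}
  injl : Set.InjOn l {v | v ∉ W}
  inc : ∀ u v, u ∉ W → v ∉ W → G.Adj u v → ¬ D.Adj u v → p u ∈ l v

namespace Conf

variable {V P L : Type} [Fintype V] [Fintype P] [Fintype L] [Membership P L] [ProjectivePlane P L]
  {G D : SimpleGraph V} {W : Finset V} {p : V → P} {l : V → L} {q r : ℕ}

open Classical in
theorem ncard_eq (G : SimpleGraph V) (v : V) :
    (G.neighborSet v).ncard = (univ.filter fun u => G.Adj v u).card := by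
  rw [Set.ncard_eq_toFinset_card']
  congr 1
  ext u
  simp

open Classical in
/-- the good neighbours: at least `deg - a - d` -/
theorem good (h : Conf G D W p l q r) (s : V) :
    (G.neighborSet s).ncard ≤ (univ.filter fun x => x ∉ W ∧ G.Adj x s ∧ ¬ D.Adj x s).card +
      (W.filter fun w => G.Adj w s).card + (D.neighborSet s).ncard := by
  rw [ncard_eq, ncard_eq]
  calc (univ.filter fun u => G.Adj s u).card
      ≤ (((univ.filter fun x => x ∉ W ∧ G.Adj x s ∧ ¬ D.Adj x s) ∪
          (W.filter fun w => G.Adj w s)) ∪ (univ.filter fun u => D.Adj s u)).card := by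
        refine Finset.card_le_card fun x hx => ?_
        have hx' : G.Adj s x := (mem_filter.mp hx).2
        rw [Finset.mem_union, Finset.mem_union, mem_filter, mem_filter, mem_filter]
        by_cases h1 : x ∈ W
        · exact Or.inl (Or.inr ⟨h1, hx'.symm⟩)
        · by_cases h2 : D.Adj s x
          · exact Or.inr ⟨mem_univ _, h2⟩
          · exact Or.inl (Or.inl ⟨mem_univ _, h1, hx'.symm, fun h3 => h2 h3.symm⟩)
    _ ≤ _ := (Finset.card_union_le _ _).trans (Nat.add_le_add_right (Finset.card_union_le _ _) _)

open Classical in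
/-- On the line of `s` there are at most `order + 1 - (q - 2 r)` points of vertices not adjacent to
`s`. -/
theorem missL (h : Conf G D W p l q r) {s : V} (hs : s ∉ W) :
    (univ.filter fun x => x ∉ W ∧ p x ∈ l s ∧ ¬ G.Adj x s).card + q ≤
      ProjectivePlane.order P L + 1 + 2 * r := by
  have h1 := h.good s
  have h2 := h.deg s
  have h3 : (W.filter fun w => G.Adj w s).card ≤ r := (Finset.card_filter_le _ _).trans h.cardW
  have h4 := h.degD s
  have h5 : (univ.filter fun x => x ∉ W ∧ p x ∈ l s ∧ ¬ G.Adj x s).card +
      (univ.filter fun x => x ∉ W ∧ G.Adj x s ∧ ¬ D.Adj x s).card ≤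
        ProjectivePlane.order P L + 1 := by
    rw [← Finset.card_union_of_disjoint]
    · rw [← ProjectivePlane.pointCount_eq P (l s), pointCount, Nat.card_eq_fintype_card,
        Fintype.card_subtype]
      refine Finset.card_le_card_of_injOn p (fun x hx => ?_) (fun x hx y hy hxy => ?_)
      · rw [Finset.mem_coe, Finset.mem_union, mem_filter, mem_filter] at hx
        rw [Finset.mem_coe, mem_filter]
        rcases hx with hx | hx
        · exact ⟨mem_univ _, hx.2.2.1⟩
        · exact ⟨mem_univ _, h.inc x s hx.2.1 hs hx.2.2.1 hx.2.2.2⟩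
      · rw [Finset.mem_coe, Finset.mem_union, mem_filter, mem_filter] at hx hy
        refine h.injp ?_ ?_ hxy
        · rcases hx with hx | hx <;> exact hx.2.1
        · rcases hy with hy | hy <;> exact hy.2.1
    · rw [Finset.disjoint_left]
      intro x hx hy
      rw [mem_filter] at hx hy
      exact hx.2.2.2 hy.2.2.1
  omega

open Classical in
/-- Through the point of `x` there are at most `order + 1 - (q - 2 r)` lines of vertices not
adjacent to `x`. -/
theorem missP (h : Conf G D W p l q r) {x : V} (hx : x ∉ W) :
    (univ.filter fun s => s ∉ W ∧ p x ∈ l s ∧ ¬ G.Adj s x).card + q ≤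
      ProjectivePlane.order P L + 1 + 2 * r := by
  have h1 := h.good x
  have h2 := h.deg x
  have h3 : (W.filter fun w => G.Adj w x).card ≤ r := (Finset.card_filter_le _ _).trans h.cardW
  have h4 := h.degD x
  have h5 : (univ.filter fun s => s ∉ W ∧ p x ∈ l s ∧ ¬ G.Adj s x).card +
      (univ.filter fun s => s ∉ W ∧ G.Adj s x ∧ ¬ D.Adj s x).card ≤
        ProjectivePlane.order P L + 1 := by
    rw [← Finset.card_union_of_disjoint]
    · rw [← ProjectivePlane.lineCount_eq L (p x), lineCount, Nat.card_eq_fintype_card,
        Fintype.card_subtype]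
      refine Finset.card_le_card_of_injOn l (fun s hs => ?_) (fun s hs y hy hsy => ?_)
      · rw [Finset.mem_coe, Finset.mem_union, mem_filter, mem_filter] at hs
        rw [Finset.mem_coe, mem_filter]
        rcases hs with hs | hs
        · exact ⟨mem_univ _, hs.2.2.1⟩
        · exact ⟨mem_univ _, h.inc x s hx hs.2.1 hs.2.2.1.symm fun h6 => hs.2.2.2 h6.symm⟩
      · rw [Finset.mem_coe, Finset.mem_union, mem_filter, mem_filter] at hs hy
        refine h.injl ?_ ?_ hsy
        · rcases hs with hs | hs <;> exact hs.2.1
        · rcases hy with hy | hy <;> exact hy.2.1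
    · rw [Finset.disjoint_left]
      intro s hs hy
      rw [mem_filter] at hs hy
      exact hs.2.2.2 hy.2.2.1
  omega

open Classical in
/-- Two vertices have at most one common neighbour. -/
theorem common (h : Conf G D W p l q r) {u v : V} (huv : u ≠ v) (S : Finset V)
    (hS : ∀ w ∈ S, G.Adj u w ∧ G.Adj v w) : S.card ≤ 1 := by
  rw [Finset.card_le_one]
  intro w hw w' hw'
  exact h.c4 u v w w' huv (hS w hw).1 (hS w hw).2 (hS w' hw').1 (hS w' hw').2

open Classical in
/-- The maximum degree. -/
theorem deg_le (h : Conf G D W p l q r) (v : V) :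
    (G.neighborSet v).ncard * q ≤ (G.neighborSet v).ncard + (Fintype.card V - 1) := by
  rw [ncard_eq]
  have h1 : (univ.filter fun u => G.Adj v u).card * q ≤
      ∑ w ∈ univ.filter (fun u => G.Adj v u), (univ.filter fun u => G.Adj w u).card := by
    rw [← smul_eq_mul]
    refine Finset.card_nsmul_le_sum _ _ _ fun w _ => ?_
    rw [← ncard_eq]
    exact h.deg w
  refine h1.trans ?_
  have h2 : ∑ w ∈ univ.filter (fun u => G.Adj v u), (univ.filter fun u => G.Adj w u).card =
      ∑ x, (univ.filter fun w => G.Adj v w ∧ G.Adj x w).card := by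
    simp_rw [Finset.card_filter]
    rw [Finset.sum_comm]
    refine Finset.sum_congr rfl fun x _ => ?_
    rw [Finset.sum_filter]
    refine Finset.sum_congr rfl fun w _ => ?_
    by_cases h3 : G.Adj v w <;> by_cases h4 : G.Adj x w <;> simp [h3, h4, G.adj_comm w x]
  rw [h2, ← Finset.add_sum_erase univ _ (Finset.mem_univ v)]
  have h5 : (univ.filter fun w => G.Adj v w ∧ G.Adj v w).card =
      (univ.filter fun u => G.Adj v u).card := by
    simp
  rw [h5]
  refine Nat.add_le_add_left ?_ _
  calc ∑ x ∈ univ.erase v, (univ.filter fun w => G.Adj v w ∧ G.Adj x w).card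
      ≤ ∑ _x ∈ univ.erase v, 1 := by
        refine Finset.sum_le_sum fun x hx => ?_
        exact h.common (Finset.ne_of_mem_erase hx).symm _ fun w hw => (mem_filter.mp hw).2
    _ = Fintype.card V - 1 := by
        rw [Finset.sum_const, smul_eq_mul, mul_one, Finset.card_erase_of_mem (Finset.mem_univ v),
          Finset.card_univ]

end Conf

end Pool.Agent.PD
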