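import Mathlib

/-!
# Graphs which nearly lie in a projective plane
-/

set_option autoImplicit false

namespace Pool.Agent.PD

open Configuration

/-- The graph `G` with `n` vertices nearly lies in a finite projective plane, of order `Q` with
`√Q + 4 ≤ √n`: after deleting the vertices of a set `W` with at most `r` elements and the edges of
a graph `D`, at most `c n` edges in all and at most `r` at each vertex, the graph lies in the plane,
that is, there are different points `p v` and different lines `l v` of the plane, one of each for
every vertex `v`, such that `p u` lies on `l v` whenever `u` and `v` are adjacent. -/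
def NearPlane (r : ℕ) (c : ℝ) {n : ℕ} (G : SimpleGraph (Fin n)) : Prop :=
  ∃ (P L : Type) (_ : Finite P) (_ : Finite L) (_ : Membership P L) (_ : ProjectivePlane P L)
    (W : Finset (Fin n)) (D : SimpleGraph (Fin n)) (p : Fin n → P) (l : Fin n → L),
    Real.sqrt (ProjectivePlane.order P L) + 4 ≤ Real.sqrt n ∧
      W.card ≤ r ∧ (D.edgeSet.ncard : ℝ) ≤ c * n ∧ (∀ v, (D.neighborSet v).ncard ≤ r) ∧
      Set.InjOn p {v | v ∉ W} ∧ Set.InjOn l {v | v ∉ W} ∧
      ∀ u v, u ∉ W → v ∉ W → G.Adj u v → ¬ D.Adj u v → p u ∈ l v

open Classical in
/-- The least `k` such that every graph with `n` vertices and minimum degree at least `k` which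
nearly lies in a projective plane contains a four-cycle. -/
noncomputable def fNear (r : ℕ) (c : ℝ) (n : ℕ) : ℕ :=
  sInf {k : ℕ | ∀ G : SimpleGraph (Fin n), NearPlane r c G → k ≤ G.minDegree →
    (SimpleGraph.cycleGraph 4).IsContained G}

end Pool.Agent.PD
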