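import Pool.Agent.Helper63_PD.Conf

/-!
# The case of a plane of order `q`
-/

set_option autoImplicit false

namespace Pool.Agent.PD.Conf

open Configuration Finset

variable {V P L : Type} [Fintype V] [Fintype P] [Fintype L] [Membership P L] [ProjectivePlane P L]
  {G D : SimpleGraph V} {W : Finset V} {p : V → P} {l : V → L} {q r : ℕ}

open Classical in
/-- the number of the neighbours of `w` outside `W` -/
noncomputable def sg (G : SimpleGraph V) (W : Finset V) (w : V) : ℕ :=
  (univ.filter fun s => s ∉ W ∧ G.Adj w s).card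

open Classical in
/-- the number of the neighbours of `w` outside `W` whose lines contain the point `z` -/
noncomputable def tt (G : SimpleGraph V) (W : Finset V) (l : V → L) (w : V) (z : P) : ℕ :=
  (univ.filter fun s => s ∉ W ∧ G.Adj w s ∧ z ∈ l s).card

open Classical in
/-- the number of the neighbours of `w` outside `W` whose lines contain the point of `x` and which
are not adjacent to `x` -/
noncomputable def ms (G : SimpleGraph V) (W : Finset V) (p : V → P) (l : V → L) (w x : V) : ℕ :=
  (univ.filter fun s => s ∉ W ∧ G.Adj w s ∧ p x ∈ l s ∧ ¬ G.Adj s x).card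

open Classical in
theorem line_sum (h : Conf G D W p l q r) (w : V) (z : P) :
    (∑ m : L, if z ∈ m then (if m ∈ (univ.filter fun s => s ∉ W ∧ G.Adj w s).image l then (1 : ℤ)
      else 0) else 0) = tt G W l w z := by
  have h1 : ∀ m : L, (if z ∈ m then (if m ∈ (univ.filter fun s => s ∉ W ∧ G.Adj w s).image l then
      (1 : ℤ) else 0) else 0) =
      if m ∈ (univ.filter fun s => s ∉ W ∧ G.Adj w s ∧ z ∈ l s).image l then 1 else 0 := by
    intro m
    by_cases hz : z ∈ m
    · rw [if_pos hz]
      refine if_congr ?_ rfl rfl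
      simp only [mem_image, mem_filter, mem_univ, true_and]
      constructor
      · rintro ⟨s, hs, rfl⟩
        exact ⟨s, ⟨hs.1, hs.2, hz⟩, rfl⟩
      · rintro ⟨s, hs, rfl⟩
        exact ⟨s, ⟨hs.1, hs.2.1⟩, rfl⟩
    · rw [if_neg hz, if_neg]
      simp only [mem_image, mem_filter, mem_univ, true_and]
      rintro ⟨s, hs, rfl⟩
      exact hz hs.2.2
  simp_rw [h1]
  rw [← Finset.sum_filter, Finset.sum_const, nsmul_eq_mul, mul_one]
  congr 1
  have h2 : (univ.filter fun m => m ∈ (univ.filter fun s => s ∉ W ∧ G.Adj w s ∧ z ∈ l s).image l) =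
      (univ.filter fun s => s ∉ W ∧ G.Adj w s ∧ z ∈ l s).image l := by
    ext m
    simp
  rw [h2, Finset.card_image_of_injOn]
  · rfl
  · intro s hs s' hs' hss
    rw [Finset.mem_coe, mem_filter] at hs hs'
    exact h.injl hs.2.1 hs'.2.1 hss

open Classical in
theorem sum_image (h : Conf G D W p l q r) (w : V) :
    (∑ m : L, if m ∈ (univ.filter fun s => s ∉ W ∧ G.Adj w s).image l then (1 : ℤ) else 0) =
      sg G W w := by
  rw [← Finset.sum_filter, Finset.sum_const, nsmul_eq_mul, mul_one]
  congr 1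
  have h2 : (univ.filter fun m => m ∈ (univ.filter fun s => s ∉ W ∧ G.Adj w s).image l) =
      (univ.filter fun s => s ∉ W ∧ G.Adj w s).image l := by
    ext m
    simp
  rw [h2, Finset.card_image_of_injOn]
  · rfl
  · intro s hs s' hs' hss
    rw [Finset.mem_coe, mem_filter] at hs hs'
    exact h.injl hs.2.1 hs'.2.1 hss

/-- `∑ t ^ 2 = Q σ + σ ^ 2`. -/
theorem sum_tt_sq (h : Conf G D W p l q r) (w : V) :
    ∑ z : P, (tt G W l w z : ℤ) ^ 2 =
      (ProjectivePlane.order P L : ℤ) * sg G W w + (sg G W w : ℤ) ^ 2 := by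
  classical
  have h1 := sum_sq' (P := P) (R := ℤ) fun m : L =>
    if m ∈ (univ.filter fun s => s ∉ W ∧ G.Adj w s).image l then (1 : ℤ) else 0
  have h2 : ∑ m : L, (if m ∈ (univ.filter fun s => s ∉ W ∧ G.Adj w s).image l then (1 : ℤ)
      else 0) ^ 2 = sg G W w := by
    rw [← h.sum_image w]
    refine Finset.sum_congr rfl fun m _ => ?_
    split_ifs <;> simp
  rw [h2, h.sum_image w] at h1
  rw [← h1]
  refine Finset.sum_congr rfl fun z _ => ?_
  rw [h.line_sum w z]

open Classical in
theorem sum_tt (w : V) : ∑ z : P, tt G W l w z = (ProjectivePlane.order P L + 1) * sg G W w := by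
  unfold tt
  simp_rw [Finset.card_filter]
  rw [Finset.sum_comm]
  have h1 : ∀ s : V, (∑ z : P, if s ∉ W ∧ G.Adj w s ∧ z ∈ l s then 1 else 0) =
      if s ∉ W ∧ G.Adj w s then ProjectivePlane.order P L + 1 else 0 := by
    intro s
    by_cases hs : s ∉ W ∧ G.Adj w s
    · rw [if_pos hs, ← ProjectivePlane.pointCount_eq P (l s), pointCount, Nat.card_eq_fintype_card,
        Fintype.card_subtype, Finset.card_filter]
      refine Finset.sum_congr rfl fun z _ => ?_
      exact if_congr ⟨fun h => h.2.2, fun h => ⟨hs.1, hs.2, h⟩⟩ rfl rfl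
    · rw [if_neg hs]
      refine Finset.sum_eq_zero fun z _ => ?_
      rw [if_neg]
      exact fun h => hs ⟨h.1, h.2.1⟩
  rw [Finset.sum_congr rfl fun s _ => h1 s, ← Finset.sum_filter, Finset.sum_const, smul_eq_mul,
    mul_comm]
  rfl

open Classical in
theorem tt_le (h : Conf G D W p l q r) {w x : V} (hw : w ∈ W) (hx : x ∉ W) :
    tt G W l w (p x) ≤ 1 + ms G W p l w x := by
  unfold tt ms
  calc (univ.filter fun s => s ∉ W ∧ G.Adj w s ∧ p x ∈ l s).card
      ≤ ((univ.filter fun s => G.Adj w s ∧ G.Adj x s) ∪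
          (univ.filter fun s => s ∉ W ∧ G.Adj w s ∧ p x ∈ l s ∧ ¬ G.Adj s x)).card := by
        refine Finset.card_le_card fun s hs => ?_
        rw [mem_filter] at hs
        rw [Finset.mem_union, mem_filter, mem_filter]
        by_cases h1 : G.Adj s x
        · exact Or.inl ⟨mem_univ _, hs.2.2.1, h1.symm⟩
        · exact Or.inr ⟨mem_univ _, hs.2.1, hs.2.2.1, hs.2.2.2, h1⟩
    _ ≤ _ := by
        refine (Finset.card_union_le _ _).trans (Nat.add_le_add_right ?_ _)
        refine h.common (u := w) (v := x) ?_ _ fun s hs => (mem_filter.mp hs).2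
        rintro rfl
        exact hx hw

open Classical in
theorem ms_le (h : Conf G D W p l q r) (hQ : ProjectivePlane.order P L = q) {w x : V}
    (hx : x ∉ W) : ms G W p l w x ≤ 2 * r + 1 := by
  have h1 := h.missP hx
  have h2 : ms G W p l w x ≤
      (univ.filter fun s => s ∉ W ∧ p x ∈ l s ∧ ¬ G.Adj s x).card := by
    refine Finset.card_le_card fun s hs => ?_
    rw [mem_filter] at hs ⊢
    exact ⟨hs.1, hs.2.1, hs.2.2.2⟩
  omega

open Classical in
theorem sum_ms (h : Conf G D W p l q r) (hQ : ProjectivePlane.order P L = q) (w : V) :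
    ∑ x ∈ univ.filter (fun x => x ∉ W), ms G W p l w x ≤ (2 * r + 1) * sg G W w := by
  unfold ms sg
  simp_rw [Finset.card_filter]
  rw [Finset.sum_comm]
  have h1 : ∀ s : V, (∑ x ∈ univ.filter (fun x => x ∉ W),
      if s ∉ W ∧ G.Adj w s ∧ p x ∈ l s ∧ ¬ G.Adj s x then 1 else 0) ≤
      (2 * r + 1) * if s ∉ W ∧ G.Adj w s then 1 else 0 := by
    intro s
    by_cases hs : s ∉ W ∧ G.Adj w s
    · rw [if_pos hs, mul_one, ← Finset.card_filter, Finset.filter_filter]
      have h2 := h.missL hs.1
      have h3 : (univ.filter fun x => x ∉ W ∧ s ∉ W ∧ G.Adj w s ∧ p x ∈ l s ∧ ¬ G.Adj s x).card ≤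
          (univ.filter fun x => x ∉ W ∧ p x ∈ l s ∧ ¬ G.Adj x s).card := by
        refine Finset.card_le_card fun x hx => ?_
        rw [mem_filter] at hx ⊢
        exact ⟨hx.1, hx.2.1, hx.2.2.2.2.1, fun h4 => hx.2.2.2.2.2 h4.symm⟩
      omega
    · rw [if_neg hs, mul_zero, Nat.le_zero]
      refine Finset.sum_eq_zero fun x _ => ?_
      rw [if_neg]
      exact fun h => hs ⟨h.1, h.2.1⟩
  rw [Finset.mul_sum]
  exact Finset.sum_le_sum fun s _ => h1 s

end Pool.Agent.PD.Conf
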