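import Pool.Agent.Helper63_PD.EqCase

/-!
# The case of a plane of order `q`, conclusion
-/

set_option autoImplicit false

namespace Pool.Agent.PD.Conf

open Configuration Finset

variable {V P L : Type} [Fintype V] [Fintype P] [Fintype L] [Membership P L] [ProjectivePlane P L]
  {G D : SimpleGraph V} {W : Finset V} {p : V → P} {l : V → L} {q r : ℕ}

open Classical in
/-- The points of the vertices outside `W`. -/
noncomputable def im (W : Finset V) (p : V → P) : Finset P := (univ.filter fun x => x ∉ W).image p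

open Classical in
theorem card_im (h : Conf G D W p l q r) : (im W p).card + W.card = Fintype.card V := by
  unfold im
  rw [Finset.card_image_of_injOn]
  · have h1 : (univ.filter fun x => x ∉ W) = Wᶜ := by
      ext x
      simp
    rw [h1, Finset.card_compl]
    have := Finset.card_le_univ W
    omega
  · intro s hs s' hs' hss
    rw [Finset.mem_coe, mem_filter] at hs hs'
    exact h.injp hs.2 hs'.2 hss

open Classical in
theorem sum_Z (h : Conf G D W p l q r) (hQ : ProjectivePlane.order P L = q) {w : V} (hw : w ∈ W) :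
    (sg G W w : ℤ) ^ 2 - (1 + (2 * r + 2) * (2 * r + 1)) * sg G W w ≤
      ∑ z ∈ (im W p)ᶜ, (tt G W l w z : ℤ) ^ 2 := by
  have h1 := h.sum_tt_sq w
  have h2 : ∑ z : P, (tt G W l w z : ℤ) ^ 2 = ∑ z ∈ im W p, (tt G W l w z : ℤ) ^ 2 +
      ∑ z ∈ (im W p)ᶜ, (tt G W l w z : ℤ) ^ 2 := (Finset.sum_add_sum_compl _ _).symm
  have h3 : ∑ z ∈ im W p, (tt G W l w z : ℤ) ^ 2 ≤
      ∑ z ∈ im W p, (tt G W l w z : ℤ) + (2 * r + 2) * ((2 * r + 1) * sg G W w) := by
    have h4 : ∑ z ∈ im W p, ((tt G W l w z : ℤ) ^ 2 - tt G W l w z) ≤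
        (2 * r + 2) * ((2 * r + 1) * sg G W w) := by
      unfold im
      rw [Finset.sum_image]
      · have h5 := h.sum_ms hQ w
        have h6 : ((∑ x ∈ univ.filter (fun x => x ∉ W), ms G W p l w x : ℕ) : ℤ) ≤
            (2 * r + 1) * sg G W w := by exact_mod_cast h5
        calc ∑ x ∈ univ.filter (fun x => x ∉ W),
              ((tt G W l w (p x) : ℤ) ^ 2 - tt G W l w (p x))
            ≤ ∑ x ∈ univ.filter (fun x => x ∉ W), (2 * r + 2) * (ms G W p l w x : ℤ) := by
              refine Finset.sum_le_sum fun x hx => ?_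
              have hx' : x ∉ W := (mem_filter.mp hx).2
              have h7 := h.tt_le hw hx'
              have h8 := h.ms_le (w := w) hQ hx'
              have h9 : (tt G W l w (p x) : ℤ) ≤ 1 + ms G W p l w x := by exact_mod_cast h7
              have h10 : (ms G W p l w x : ℤ) ≤ 2 * r + 1 := by exact_mod_cast h8
              have h11 : (0 : ℤ) ≤ tt G W l w (p x) := Int.natCast_nonneg _
              have h12 : (0 : ℤ) ≤ ms G W p l w x := Int.natCast_nonneg _
              nlinarith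
          _ = (2 * r + 2) * ((∑ x ∈ univ.filter (fun x => x ∉ W), ms G W p l w x : ℕ) : ℤ) := by
              rw [← Finset.mul_sum]
              push_cast
              rfl
          _ ≤ _ := mul_le_mul_of_nonneg_left h6 (by positivity)
      · intro s hs s' hs' hss
        rw [Finset.mem_coe, mem_filter] at hs hs'
        exact h.injp hs.2 hs'.2 hss
    rw [Finset.sum_sub_distrib] at h4
    linarith
  have h5 : ∑ z ∈ im W p, (tt G W l w z : ℤ) ≤ (q + 1) * sg G W w := by
    have h6 : ∑ z ∈ im W p, tt G W l w z ≤ ∑ z : P, tt G W l w z :=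
      Finset.sum_le_univ_sum_of_nonneg fun _ => Nat.zero_le _
    rw [sum_tt, hQ] at h6
    exact_mod_cast h6
  rw [h2, hQ] at h1
  linarith

open Classical in
/-- `∑ over w in W of t w z ≤ q + 1 + r ^ 2`. -/
theorem sum_W (h : Conf G D W p l q r) (hQ : ProjectivePlane.order P L = q) (z : P) :
    ∑ w ∈ W, tt G W l w z ≤ q + 1 + r ^ 2 := by
  set Λ : Finset V := univ.filter fun s => s ∉ W ∧ z ∈ l s with hΛ
  set a : V → ℕ := fun s => (W.filter fun w => G.Adj w s).card with ha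
  have hcard : Λ.card ≤ q + 1 := by
    rw [← hQ, ← ProjectivePlane.lineCount_eq L z, lineCount, Nat.card_eq_fintype_card,
      Fintype.card_subtype]
    refine Finset.card_le_card_of_injOn l (fun s hs => ?_) (fun s hs y hy hsy => ?_)
    · rw [Finset.mem_coe, mem_filter] at hs
      rw [Finset.mem_coe, mem_filter]
      exact ⟨mem_univ _, hs.2.2⟩
    · rw [Finset.mem_coe, mem_filter] at hs hy
      exact h.injl hs.2.1 hy.2.1 hsy
  have h1 : ∑ w ∈ W, tt G W l w z = ∑ s ∈ Λ, a s := by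
    unfold tt
    rw [ha]
    simp_rw [Finset.card_filter]
    rw [Finset.sum_comm, hΛ, Finset.sum_filter]
    refine Finset.sum_congr rfl fun s _ => ?_
    by_cases hs : s ∉ W ∧ z ∈ l s
    · rw [if_pos hs]
      refine Finset.sum_congr rfl fun w _ => ?_
      exact if_congr ⟨fun h => h.2.1, fun h => ⟨hs.1, h, hs.2⟩⟩ rfl rfl
    · rw [if_neg hs]
      refine Finset.sum_eq_zero fun w _ => ?_
      rw [if_neg]
      exact fun h => hs ⟨h.1, h.2.2⟩
  have h2 : ∑ s ∈ Λ, a s * a s = ∑ w ∈ W, ∑ w' ∈ W,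
      (Λ.filter fun s => G.Adj w s ∧ G.Adj w' s).card := by
    rw [ha]
    simp_rw [Finset.card_filter, Finset.sum_mul_sum]
    rw [Finset.sum_comm]
    refine Finset.sum_congr rfl fun w _ => ?_
    rw [Finset.sum_comm]
    refine Finset.sum_congr rfl fun w' _ => ?_
    refine Finset.sum_congr rfl fun s _ => ?_
    by_cases h3 : G.Adj w s <;> by_cases h4 : G.Adj w' s <;> simp [h3, h4]
  have h3 : ∑ s ∈ Λ, a s = ∑ w ∈ W, (Λ.filter fun s => G.Adj w s ∧ G.Adj w s).card := by
    rw [ha]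
    simp_rw [Finset.card_filter]
    rw [Finset.sum_comm]
    refine Finset.sum_congr rfl fun w _ => ?_
    refine Finset.sum_congr rfl fun s _ => ?_
    simp
  have h4 : ∑ s ∈ Λ, a s * a s ≤ ∑ s ∈ Λ, a s + r ^ 2 := by
    rw [h2, h3]
    calc ∑ w ∈ W, ∑ w' ∈ W, (Λ.filter fun s => G.Adj w s ∧ G.Adj w' s).card
        ≤ ∑ w ∈ W, ((Λ.filter fun s => G.Adj w s ∧ G.Adj w s).card + W.card) := by
          refine Finset.sum_le_sum fun w hw => ?_
          rw [← Finset.add_sum_erase W _ hw]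
          refine Nat.add_le_add_left ?_ _
          calc ∑ x ∈ W.erase w, (Λ.filter fun s => G.Adj w s ∧ G.Adj x s).card
              ≤ ∑ _x ∈ W.erase w, 1 := by
                refine Finset.sum_le_sum fun x hx => ?_
                exact h.common (Finset.ne_of_mem_erase hx).symm _
                  fun s hs => (mem_filter.mp hs).2
            _ ≤ W.card := by
                rw [Finset.sum_const, smul_eq_mul, mul_one]
                exact Finset.card_le_card (Finset.erase_subset _ _)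
      _ = ∑ w ∈ W, (Λ.filter fun s => G.Adj w s ∧ G.Adj w s).card + W.card * W.card := by
          rw [Finset.sum_add_distrib, Finset.sum_const, smul_eq_mul]
      _ ≤ _ := by
          rw [sq]
          exact Nat.add_le_add_left (Nat.mul_le_mul h.cardW h.cardW) _
  have h5 : ∑ s ∈ Λ, a s + ∑ s ∈ Λ, a s ≤ Λ.card + ∑ s ∈ Λ, a s * a s := by
    rw [← Finset.sum_add_distrib, Finset.card_eq_sum_ones, ← Finset.sum_add_distrib]
    refine Finset.sum_le_sum fun s _ => ?_
    rcases Nat.eq_zero_or_pos (a s) with h6 | h6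
    · simp [h6]
    · nlinarith
  rw [h1]
  omega

open Classical in
theorem sg_ge (h : Conf G D W p l q r) (w : V) : q ≤ sg G W w + r := by
  refine (h.deg w).trans ?_
  rw [ncard_eq]
  calc (univ.filter fun u => G.Adj w u).card
      ≤ ((univ.filter fun s => s ∉ W ∧ G.Adj w s) ∪ W).card := by
        refine Finset.card_le_card fun x hx => ?_
        rw [Finset.mem_union, mem_filter]
        by_cases h1 : x ∈ W
        · exact Or.inr h1
        · exact Or.inl ⟨mem_univ _, h1, (mem_filter.mp hx).2⟩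
    _ ≤ sg G W w + W.card := Finset.card_union_le _ _
    _ ≤ _ := Nat.add_le_add_left h.cardW _

/-- There is no such graph with more than `q ^ 2 + q + 1` vertices in a plane of order `q`. -/
theorem eq_case (h : Conf G D W p l q r) (hQ : ProjectivePlane.order P L = q)
    (hV : q ^ 2 + q + 1 < Fintype.card V) (hq : 7 * (r + 1) ^ 3 ≤ q) : False := by
  classical
  have h1 := h.card_im
  have h2 : (im W p).card + (im W p)ᶜ.card = q ^ 2 + q + 1 := by
    rw [Finset.card_add_card_compl, ProjectivePlane.card_points P L, hQ]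
  have h3 : (im W p)ᶜ.card + 1 ≤ W.card := by omega
  have hW := h.cardW
  set K : ℤ := 1 + (2 * r + 2) * (2 * r + 1) with hK
  set A : ℤ := ((q : ℤ) + 1 + r ^ 2) ^ 2 with hA
  set B : ℤ := ((q : ℤ) - r) ^ 2 - K * (q - r) with hB
  have hr0 : (0 : ℤ) ≤ r := Int.natCast_nonneg r
  have hq' : 7 * ((r : ℤ) + 1) ^ 3 ≤ q := by exact_mod_cast hq
  have hR1 : (1 : ℤ) ≤ ((r : ℤ) + 1) := by linarith
  have hR2 : ((r : ℤ) + 1) ≤ ((r : ℤ) + 1) ^ 3 := le_self_pow₀ hR1 (by norm_num)
  have hR3 : ((r : ℤ) + 1) ^ 2 ≤ ((r : ℤ) + 1) ^ 3 := pow_le_pow_right₀ hR1 (by norm_num)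
  have hKr : K ≤ 4 * ((r : ℤ) + 1) ^ 2 := by
    rw [hK]
    nlinarith
  -- the lower bound
  have h4 : ∀ w ∈ W, B ≤ ∑ z ∈ (im W p)ᶜ, (tt G W l w z : ℤ) ^ 2 := by
    intro w hw
    refine le_trans ?_ (h.sum_Z hQ hw)
    have h5 : (q : ℤ) ≤ sg G W w + r := by exact_mod_cast h.sg_ge w
    rw [hB, ← hK]
    have h6 : 0 ≤ ((sg G W w : ℤ) - (q - r)) * (sg G W w + (q - r) - K) := by
      apply mul_nonneg
      · linarith
      · nlinarith
    nlinarith
  have h5 : (W.card : ℤ) * B ≤ ∑ w ∈ W, ∑ z ∈ (im W p)ᶜ, (tt G W l w z : ℤ) ^ 2 := by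
    rw [← nsmul_eq_mul]
    exact Finset.card_nsmul_le_sum _ _ _ h4
  have h6 : ∑ w ∈ W, ∑ z ∈ (im W p)ᶜ, (tt G W l w z : ℤ) ^ 2 ≤ ((im W p)ᶜ.card : ℤ) * A := by
    rw [Finset.sum_comm, ← nsmul_eq_mul]
    refine Finset.sum_le_card_nsmul _ _ _ fun z _ => ?_
    have h7 : ∑ w ∈ W, (tt G W l w z : ℤ) ^ 2 ≤ (∑ w ∈ W, (tt G W l w z : ℤ)) ^ 2 := by
      calc ∑ w ∈ W, (tt G W l w z : ℤ) ^ 2
          ≤ ∑ w ∈ W, (tt G W l w z : ℤ) * ∑ w ∈ W, (tt G W l w z : ℤ) := by
            refine Finset.sum_le_sum fun w hw => ?_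
            rw [sq]
            exact mul_le_mul_of_nonneg_left
              (Finset.single_le_sum (f := fun w => (tt G W l w z : ℤ))
                (fun w _ => Int.natCast_nonneg _) hw) (Int.natCast_nonneg _)
        _ = _ := by rw [← Finset.sum_mul, sq]
    refine h7.trans ?_
    have h8 : ∑ w ∈ W, (tt G W l w z : ℤ) ≤ q + 1 + r ^ 2 := by exact_mod_cast h.sum_W hQ z
    exact pow_le_pow_left₀ (Finset.sum_nonneg fun w _ => Int.natCast_nonneg _) h8 2
  have hA0 : 0 ≤ A := sq_nonneg _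
  have h7 : (W.card : ℤ) * B ≤ ((W.card : ℤ) - 1) * A := by
    refine h5.trans (h6.trans (mul_le_mul_of_nonneg_right ?_ hA0))
    have : ((im W p)ᶜ.card : ℤ) + 1 ≤ W.card := by exact_mod_cast h3
    linarith
  have h8 : A ≤ (W.card : ℤ) * (A - B) := by linarith
  have h9 : A - B ≤ ((r : ℤ) + 1) ^ 2 * (2 * q + ((r : ℤ) + 1) ^ 2) + 4 * ((r : ℤ) + 1) ^ 2 * q := by
    have h10 : K * (q - r) ≤ 4 * ((r : ℤ) + 1) ^ 2 * q := by
      have h11 : (q : ℤ) - r ≤ q := by linarith
      have h12 : 0 ≤ (q : ℤ) - r := by nlinarith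
      have h13 : 0 ≤ K := by rw [hK]; positivity
      calc K * (q - r) ≤ (4 * ((r : ℤ) + 1) ^ 2) * (q - r) := mul_le_mul_of_nonneg_right hKr h12
        _ ≤ _ := mul_le_mul_of_nonneg_left h11 (by positivity)
    have h11 : A - B = (1 + (r : ℤ) ^ 2 + r) * (2 * q + 1 + r ^ 2 - r) + K * (q - r) := by
      rw [hA, hB]
      ring
    rw [h11]
    have h12 : (1 + (r : ℤ) ^ 2 + r) * (2 * q + 1 + r ^ 2 - r) ≤
        ((r : ℤ) + 1) ^ 2 * (2 * q + ((r : ℤ) + 1) ^ 2) := by
      apply mul_le_mul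
      · nlinarith
      · nlinarith
      · nlinarith
      · positivity
    linarith
  have h10 : (W.card : ℤ) * (A - B) ≤ ((r : ℤ) + 1) *
      (((r : ℤ) + 1) ^ 2 * (2 * q + ((r : ℤ) + 1) ^ 2) + 4 * ((r : ℤ) + 1) ^ 2 * q) := by
    have h11 : (W.card : ℤ) ≤ r + 1 := by
      have : (W.card : ℤ) ≤ r := by exact_mod_cast hW
      linarith
    calc (W.card : ℤ) * (A - B) ≤ (W.card : ℤ) *
          (((r : ℤ) + 1) ^ 2 * (2 * q + ((r : ℤ) + 1) ^ 2) + 4 * ((r : ℤ) + 1) ^ 2 * q) :=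
          mul_le_mul_of_nonneg_left h9 (Int.natCast_nonneg _)
      _ ≤ _ := mul_le_mul_of_nonneg_right h11 (by positivity)
  have h11 : ((r : ℤ) + 1) *
      (((r : ℤ) + 1) ^ 2 * (2 * q + ((r : ℤ) + 1) ^ 2) + 4 * ((r : ℤ) + 1) ^ 2 * q) =
      ((r : ℤ) + 1) ^ 3 * (6 * q + ((r : ℤ) + 1) ^ 2) := by ring
  rw [h11] at h10
  have h12 : 7 * (((r : ℤ) + 1) ^ 3 * (6 * q + ((r : ℤ) + 1) ^ 2)) ≤ q * (6 * q + q) := by
    rw [← mul_assoc]
    apply mul_le_mul hq' _ (by positivity) (Int.natCast_nonneg _)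
    nlinarith
  have h13 : (q : ℤ) ^ 2 < A := by
    rw [hA]
    have : (0 : ℤ) ≤ q := Int.natCast_nonneg q
    nlinarith [sq_nonneg ((r : ℤ))]
  nlinarith

end Pool.Agent.PD.Conf
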