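import Pool.Agent.Helper63_PD.C4

/-!
# The polarity graph of the plane over a finite field
-/

set_option autoImplicit false

namespace Pool.Agent.PD

open Configuration Finset SimpleGraph
open scoped LinearAlgebra.Projectivization

theorem field_graph (q : ℕ) (hq : 22 ≤ q) (K : Type) [Field K] [Finite K]
    (hK : Nat.card K = q) (r : ℕ) (c : ℝ) (hc : 0 ≤ c) :
    ∃ G : SimpleGraph (Fin (q ^ 2 + q + 1)), NearPlane r c G ∧
      ∀ v, q ≤ (G.neighborSet v).ncard := by
  classical
  let P : Type := ℙ K (Fin 3 → K)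
  have : Finite P := by
    change Finite (ℙ K (Fin 3 → K))
    infer_instance
  have : Fintype P := Fintype.ofFinite P
  let iM : Membership P P := inferInstanceAs (Membership (ℙ K (Fin 3 → K)) (ℙ K (Fin 3 → K)))
  let iP : ProjectivePlane P P :=
    inferInstanceAs (ProjectivePlane (ℙ K (Fin 3 → K)) (ℙ K (Fin 3 → K)))
  have hsymm : ∀ x y : P, x ∈ y → y ∈ x := by
    intro x y h
    exact Projectivization.orthogonal_comm.mp h
  have hcard : Fintype.card P = q ^ 2 + q + 1 := by
    rw [← Nat.card_eq_fintype_card]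
    change Nat.card (ℙ K (Fin 3 → K)) = _
    rw [Projectivization.card_of_finrank K (Fin 3 → K) (n := 3) (by simp), hK]
    simp [Finset.sum_range_succ]
    ring
  have horder : ProjectivePlane.order P P = q := by
    have h1 := ProjectivePlane.card_points P P
    rw [hcard] at h1
    nlinarith
  let e : P ≃ Fin (q ^ 2 + q + 1) := Fintype.equivFinOfCardEq hcard
  let G : SimpleGraph (Fin (q ^ 2 + q + 1)) :=
    { Adj := fun u v => u ≠ v ∧ e.symm u ∈ e.symm v
      symm := ⟨fun u v h => ⟨h.1.symm, hsymm _ _ h.2⟩⟩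
      loopless := ⟨fun u h => h.1 rfl⟩ }
  refine ⟨G, ⟨P, P, inferInstance, inferInstance, iM, iP, ∅, ⊥, e.symm, e.symm, ?_, ?_, ?_, ?_,
    e.symm.injective.injOn, e.symm.injective.injOn, fun u v _ _ h _ => h.2⟩, fun v => ?_⟩
  · rw [horder]
    have hq' : (22 : ℝ) ≤ q := by exact_mod_cast hq
    have h2 : Real.sqrt q ≤ q / 4 := by
      rw [Real.sqrt_le_left (by positivity)]
      nlinarith
    have h3 : (q : ℝ) ≤ Real.sqrt ((q ^ 2 + q + 1 : ℕ) : ℝ) := by
      apply Real.le_sqrt_of_sq_le
      push_cast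
      nlinarith
    linarith
  · simp
  · simp only [SimpleGraph.edgeSet_bot, Set.ncard_empty, Nat.cast_zero]
    positivity
  · intro v
    have h0 : (⊥ : SimpleGraph (Fin (q ^ 2 + q + 1))).neighborSet v = ∅ := by
      ext x
      simp
    rw [h0, Set.ncard_empty]
    exact Nat.zero_le _
  · -- the points on the line
    have h4 : pointCount P (e.symm v) = q + 1 := by
      rw [ProjectivePlane.pointCount_eq, horder]
    have h5 : {x : P | x ∈ e.symm v}.ncard = q + 1 := by
      rw [← h4]
      rfl
    have h6 : {x : P | x ∈ e.symm v} ⊆ insert (e.symm v) (e.symm '' G.neighborSet v) := by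
      intro x hx
      by_cases hxv : x = e.symm v
      · exact Or.inl hxv
      · right
        refine ⟨e x, ⟨?_, ?_⟩, e.symm_apply_apply x⟩
        · intro h
          exact hxv (by rw [h, e.symm_apply_apply])
        · rw [e.symm_apply_apply]
          exact hsymm _ _ hx
    have h7 := Set.ncard_le_ncard h6 (Set.toFinite _)
    have h8 := Set.ncard_insert_le (e.symm v) (e.symm '' G.neighborSet v)
    rw [Set.ncard_image_of_injective _ e.symm.injective] at h8
    omega

/-- A graph which lies in a plane contains no four-cycle. -/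
theorem field_c4 (q : ℕ) (hq : 22 ≤ q) (K : Type) [Field K] [Finite K]
    (hK : Nat.card K = q) (r : ℕ) (c : ℝ) (hc : 0 ≤ c) :
    ∃ G : SimpleGraph (Fin (q ^ 2 + q + 1)), NearPlane r c G ∧
      (∀ v, q ≤ (G.neighborSet v).ncard) ∧ ¬ (cycleGraph 4).IsContained G := by
  obtain ⟨G, ⟨P, L, _, _, _, _, W, D, p, l, h1, h2, h3, h4, h5, h6, h7⟩, h8⟩ :=
    field_graph q hq K hK 0 0 le_rfl
  have hW : W = ∅ := Finset.card_eq_zero.mp (Nat.le_zero.mp h2)
  subst hW
  have hD : ∀ u v, ¬ D.Adj u v := by
    intro u v huv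
    have h9 : (D.neighborSet u).ncard = 0 := Nat.le_zero.mp (h4 u)
    rw [Set.ncard_eq_zero (Set.toFinite _)] at h9
    have : v ∈ D.neighborSet u := huv
    rw [h9] at this
    exact this
  have hp : Function.Injective p := fun x y hxy => h5 (by simp) (by simp) hxy
  have hl : Function.Injective l := fun x y hxy => h6 (by simp) (by simp) hxy
  have hG : ∀ u v, G.Adj u v → p u ∈ l v := fun u v h => h7 u v (by simp) (by simp) h (hD u v)
  refine ⟨G, ⟨P, L, inferInstance, inferInstance, inferInstance, inferInstance, ∅, ⊥, p, l, h1, ?_,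
    ?_, ?_, hp.injOn, hl.injOn, fun u v _ _ h _ => hG u v h⟩, h8, ?_⟩
  · simp
  · simp only [SimpleGraph.edgeSet_bot, Set.ncard_empty, Nat.cast_zero]
    positivity
  · intro v
    have h0 : (⊥ : SimpleGraph (Fin (q ^ 2 + q + 1))).neighborSet v = ∅ := by
      ext x
      simp
    rw [h0, Set.ncard_empty]
    exact Nat.zero_le _
  · rintro ⟨f⟩
    have hadj : ∀ a b : Fin 4, (cycleGraph 4).Adj a b → p (f a) ∈ l (f b) := fun a b h =>
      hG _ _ (f.toHom.map_adj h)
    have h01 := hadj 0 1 (by rw [cycleGraph_adj]; decide)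
    have h21 := hadj 2 1 (by rw [cycleGraph_adj]; decide)
    have h03 := hadj 0 3 (by rw [cycleGraph_adj]; decide)
    have h23 := hadj 2 3 (by rw [cycleGraph_adj]; decide)
    rcases Nondegenerate.eq_or_eq h01 h21 h03 h23 with h | h
    · have := f.injective (hp h)
      exact absurd this (by decide)
    · have := f.injective (hl h)
      exact absurd this (by decide)

end Pool.Agent.PD
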