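import Pool.Agent.Helper63_PD.Defs

/-!
# Counting in projective planes
-/

set_option autoImplicit false

namespace Pool.Agent.PD

open Configuration Finset

open Classical in
/-- `∑ over the lines of (∑ over the points of the line of x) ^ 2 = Q ∑ x ^ 2 + (∑ x) ^ 2`. -/
theorem sum_sq {P L : Type} [Fintype P] [Fintype L] [Membership P L] [ProjectivePlane P L]
    {R : Type} [CommRing R] (x : P → R) :
    ∑ l : L, (∑ p : P, if p ∈ l then x p else 0) ^ 2 =
      (ProjectivePlane.order P L : R) * ∑ p, x p ^ 2 + (∑ p, x p) ^ 2 := by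
  have h1 : ∀ p p' : P, (∑ l : L, (if p ∈ l then (1 : R) else 0) * (if p' ∈ l then 1 else 0)) =
      (if p = p' then (ProjectivePlane.order P L : R) else 0) + 1 := by
    intro p p'
    have h2 : (∑ l : L, (if p ∈ l then (1 : R) else 0) * (if p' ∈ l then 1 else 0)) =
        ((univ.filter fun l : L => p ∈ l ∧ p' ∈ l).card : R) := by
      rw [Finset.card_filter, Nat.cast_sum]
      refine Finset.sum_congr rfl fun l _ => ?_
      by_cases h : p ∈ l <;> by_cases h' : p' ∈ l <;> simp [h, h']
    rw [h2]
    by_cases hpp : p = p'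
    · subst hpp
      rw [if_pos rfl]
      have h3 : (univ.filter fun l : L => p ∈ l ∧ p ∈ l).card = ProjectivePlane.order P L + 1 := by
        rw [← ProjectivePlane.lineCount_eq L p, lineCount, Nat.card_eq_fintype_card,
          Fintype.card_subtype]
        congr 1
        ext l
        simp
      rw [h3]
      push_cast
      ring
    · rw [if_neg hpp, zero_add]
      obtain ⟨l, hl, hu⟩ := HasLines.existsUnique_line P L p p' hpp
      have h3 : (univ.filter fun l : L => p ∈ l ∧ p' ∈ l) = {l} := by
        ext m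
        simp only [mem_filter, mem_univ, true_and, mem_singleton]
        exact ⟨fun h => hu m h, fun h => h ▸ hl⟩
      rw [h3, card_singleton, Nat.cast_one]
  calc ∑ l : L, (∑ p : P, if p ∈ l then x p else 0) ^ 2
      = ∑ l : L, ∑ p : P, ∑ p' : P, x p * x p' *
          ((if p ∈ l then (1 : R) else 0) * (if p' ∈ l then 1 else 0)) := by
        refine Finset.sum_congr rfl fun l _ => ?_
        rw [sq, Finset.sum_mul_sum]
        refine Finset.sum_congr rfl fun p _ => Finset.sum_congr rfl fun p' _ => ?_
        by_cases h : p ∈ l <;> by_cases h' : p' ∈ l <;> simp [h, h']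
    _ = ∑ p : P, ∑ p' : P, x p * x p' *
          ∑ l : L, ((if p ∈ l then (1 : R) else 0) * (if p' ∈ l then 1 else 0)) := by
        rw [Finset.sum_comm]
        refine Finset.sum_congr rfl fun p _ => ?_
        rw [Finset.sum_comm]
        refine Finset.sum_congr rfl fun p' _ => ?_
        rw [Finset.mul_sum]
    _ = ∑ p : P, ∑ p' : P, ((if p = p' then (ProjectivePlane.order P L : R) * x p ^ 2 else 0) +
          x p * x p') := by
        refine Finset.sum_congr rfl fun p _ => Finset.sum_congr rfl fun p' _ => ?_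
        rw [h1]
        by_cases h : p = p'
        · subst h
          simp
          ring
        · simp [h]
    _ = _ := by
        simp_rw [Finset.sum_add_distrib]
        congr 1
        · rw [Finset.mul_sum]
          refine Finset.sum_congr rfl fun p _ => ?_
          simp
        · rw [sq, Finset.sum_mul_sum]

open Classical in
/-- Every point lies on `Q + 1` lines. -/
theorem sum_line {P L : Type} [Fintype P] [Fintype L] [Membership P L] [ProjectivePlane P L]
    {R : Type} [CommRing R] (x : P → R) :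
    ∑ l : L, (∑ p : P, if p ∈ l then x p else 0) =
      ((ProjectivePlane.order P L : R) + 1) * ∑ p, x p := by
  rw [Finset.sum_comm, Finset.mul_sum]
  refine Finset.sum_congr rfl fun p _ => ?_
  rw [← Finset.sum_filter, Finset.sum_const, nsmul_eq_mul]
  have h3 : (univ.filter fun l : L => p ∈ l).card = ProjectivePlane.order P L + 1 := by
    rw [← ProjectivePlane.lineCount_eq L p, lineCount, Nat.card_eq_fintype_card,
      Fintype.card_subtype]
  rw [h3]
  push_cast
  ring

open Classical in
/-- The dual of `sum_sq`. -/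
theorem sum_sq' {P L : Type} [Fintype P] [Fintype L] [Membership P L] [ProjectivePlane P L]
    {R : Type} [CommRing R] (x : L → R) :
    ∑ z : P, (∑ l : L, if z ∈ l then x l else 0) ^ 2 =
      (ProjectivePlane.order P L : R) * ∑ l, x l ^ 2 + (∑ l, x l) ^ 2 := by
  have h := sum_sq (P := Dual L) (L := Dual P) (R := R) x
  rw [ProjectivePlane.Dual.order] at h
  exact h

open Classical in
/-- Let `S` be a set of `n` points and `T` a set of `n` lines.  Then the number of the incidences
between `S` and `T` is at most `√Q n + n ^ 2 / (Q + √Q + 1)`. -/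
theorem mixing {P L : Type} [Fintype P] [Fintype L] [Membership P L] [ProjectivePlane P L]
    (S : Finset P) (T : Finset L) (hST : T.card = S.card) {s : ℝ}
    (hs : 0 < s) (hsQ : s ^ 2 = ProjectivePlane.order P L) :
    ∑ l ∈ T, ((S.filter fun w => w ∈ l).card : ℝ) ≤
      s * S.card + S.card / (s ^ 2 + s + 1) * S.card := by
  set Q : ℝ := (ProjectivePlane.order P L : ℝ) with hQ
  set n : ℝ := (S.card : ℝ) with hn
  set e : P → ℝ := fun p => if p ∈ S then 1 else 0 with he
  set g : L → ℝ := fun l => if l ∈ T then 1 else 0 with hg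
  set c : L → ℝ := fun l => ∑ p : P, if p ∈ l then e p else 0 with hc
  have hsum_e : ∑ p, e p = n := by
    simp [he, hn]
  have hsum_e2 : ∑ p, e p ^ 2 = n := by
    simp [he, hn]
  have hsum_g : ∑ l, g l = n := by
    simp [hg, hn, hST]
  have hsum_g2 : ∑ l, g l ^ 2 = n := by
    simp [hg, hn, hST]
  have h1 : ∑ l : L, c l ^ 2 = Q * n + n ^ 2 := by
    rw [hc, sum_sq, hsum_e2, hsum_e]
  have h2 : ∑ l : L, c l = (Q + 1) * n := by
    rw [hc, sum_line, hsum_e]
  have hN : (Fintype.card L : ℝ) = Q ^ 2 + Q + 1 := by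
    rw [ProjectivePlane.card_lines P L]
    push_cast
    ring
  -- the number of incidences
  have hX : ∑ l ∈ T, ((S.filter fun w => w ∈ l).card : ℝ) = ∑ l : L, g l * c l := by
    have h3 : ∑ l : L, g l * c l = ∑ l ∈ T, c l := by
      rw [← Finset.sum_filter_add_sum_filter_not univ (fun l => l ∈ T)]
      have h4 : ∑ l ∈ univ.filter (fun l => ¬ l ∈ T), g l * c l = 0 := by
        refine Finset.sum_eq_zero fun l hl => ?_
        have : l ∉ T := (mem_filter.mp hl).2
        simp [hg, this]
      rw [h4, add_zero]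
      have h5 : univ.filter (fun l => l ∈ T) = T := by
        ext l
        simp
      rw [h5]
      refine Finset.sum_congr rfl fun l hl => ?_
      simp [hg, hl]
    rw [h3]
    refine Finset.sum_congr rfl fun v hv => ?_
    rw [hc]
    simp only [he]
    rw [Finset.card_filter, Nat.cast_sum]
    rw [← Finset.sum_filter_add_sum_filter_not univ (fun v => v ∈ S)]
    have h4 : ∑ p ∈ univ.filter (fun v => ¬ v ∈ S),
        (if p ∈ v then (if p ∈ S then (1 : ℝ) else 0) else 0) = 0 := by
      refine Finset.sum_eq_zero fun w hw => ?_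
      have : w ∉ S := (mem_filter.mp hw).2
      simp [this]
    rw [h4, add_zero]
    have h5 : univ.filter (fun v => v ∈ S) = S := by
      ext v
      simp
    rw [h5]
    refine Finset.sum_congr rfl fun w hw => ?_
    by_cases h : w ∈ v <;> simp [h, hw]
  set κ : ℝ := n / (s ^ 2 + s + 1) with hκ
  have hpos : 0 < s ^ 2 + s + 1 := by positivity
  have hκn : κ * (s ^ 2 + s + 1) = n := by
    rw [hκ]
    field_simp
  have hsq : 0 ≤ ∑ l : L, (s * g l - c l + κ) ^ 2 :=
    Finset.sum_nonneg fun v _ => sq_nonneg _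
  have hexp0 : ∑ l : L, (s * g l - c l + κ) ^ 2 =
      s ^ 2 * ∑ l : L, g l ^ 2 + ∑ l : L, c l ^ 2 + κ ^ 2 * (Fintype.card L : ℝ)
        - 2 * s * ∑ l : L, g l * c l + 2 * s * κ * ∑ l : L, g l
        - 2 * κ * ∑ l : L, c l := by
    rw [← Finset.card_univ, Finset.mul_sum, Finset.mul_sum, Finset.mul_sum, Finset.mul_sum]
    have h7 : κ ^ 2 * ((univ : Finset L).card : ℝ) = ∑ _l : L, κ ^ 2 := by
      rw [Finset.sum_const, nsmul_eq_mul, mul_comm]
    rw [h7, ← Finset.sum_add_distrib, ← Finset.sum_add_distrib, ← Finset.sum_sub_distrib,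
      ← Finset.sum_add_distrib, ← Finset.sum_sub_distrib]
    refine Finset.sum_congr rfl fun v _ => ?_
    ring
  have hexp : ∑ l : L, (s * g l - c l + κ) ^ 2 =
      s ^ 2 * n + (Q * n + n ^ 2) + κ ^ 2 * (Q ^ 2 + Q + 1)
        - 2 * s * ∑ l : L, g l * c l + 2 * s * κ * n - 2 * κ * ((Q + 1) * n) := by
    rw [hexp0, hsum_g2, hsum_g, h1, h2, hN]
  rw [hexp, ← hsQ] at hsq
  have hkey : s ^ 2 * n + (s ^ 2 * n + n ^ 2) + κ ^ 2 * ((s ^ 2) ^ 2 + s ^ 2 + 1)
        + 2 * s * κ * n - 2 * κ * ((s ^ 2 + 1) * n) = 2 * s * (s * n + κ * n) := by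
    rw [← hκn]
    ring
  have h8 : 0 ≤ 2 * s * (s * n + κ * n) - 2 * s * ∑ l : L, g l * c l := by
    rw [← hkey]
    linarith
  rw [hX]
  by_contra hcon
  push Not at hcon
  have : 2 * s * (s * n + κ * n) < 2 * s * ∑ l : L, g l * c l := by
    apply mul_lt_mul_of_pos_left hcon
    positivity
  linarith

end Pool.Agent.PD
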