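import Pool.Agent.Helper63_PD.EqCase2

/-!
# The spectral bound
-/

set_option autoImplicit false

namespace Pool.Agent.PD.Conf

open Configuration Finset

variable {V P L : Type} [Fintype V] [Fintype P] [Fintype L] [Membership P L] [ProjectivePlane P L]
  {G D : SimpleGraph V} {W : Finset V} {p : V → P} {l : V → L} {q r : ℕ}

open Classical in
/-- The number of incidences. -/
theorem inc_le (h : Conf G D W p l q r) {s : ℝ} (hs : 0 < s)
    (hsQ : s ^ 2 = ProjectivePlane.order P L) :
    ∑ v ∈ univ.filter (fun v => v ∉ W),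
      ((univ.filter fun x => x ∉ W ∧ G.Adj x v ∧ ¬ D.Adj x v).card : ℝ) ≤
      s * (univ.filter fun v => v ∉ W).card +
        (univ.filter fun v => v ∉ W).card / (s ^ 2 + s + 1) * (univ.filter fun v => v ∉ W).card := by
  set U : Finset V := univ.filter fun v => v ∉ W with hU
  have hp : Set.InjOn p U := by
    intro s hs s' hs' hss
    rw [Finset.mem_coe, hU, mem_filter] at hs hs'
    exact h.injp hs.2 hs'.2 hss
  have hl : Set.InjOn l U := by
    intro s hs s' hs' hss
    rw [Finset.mem_coe, hU, mem_filter] at hs hs'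
    exact h.injl hs.2 hs'.2 hss
  have h1 : (U.image p).card = U.card := Finset.card_image_of_injOn hp
  have h2 : (U.image l).card = U.card := Finset.card_image_of_injOn hl
  have h3 := mixing (U.image p) (U.image l) (by rw [h1, h2]) hs hsQ
  rw [h1, Finset.sum_image hl] at h3
  refine le_trans (Finset.sum_le_sum fun v hv => ?_) h3
  rw [hU, mem_filter] at hv
  refine Nat.cast_le.mpr ?_
  refine Finset.card_le_card_of_injOn p (fun x hx => ?_) (fun x hx y hy hxy => ?_)
  · rw [Finset.mem_coe, mem_filter] at hx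
    rw [Finset.mem_coe, mem_filter]
    refine ⟨Finset.mem_image_of_mem p ?_, h.inc x v hx.2.1 hv.2 hx.2.2.1 hx.2.2.2⟩
    rw [hU, mem_filter]
    exact ⟨mem_univ _, hx.2.1⟩
  · rw [Finset.mem_coe, mem_filter] at hx hy
    exact h.injp hx.2.1 hy.2.1 hxy

open Classical in
/-- The edges between `W` and the other vertices. -/
theorem cross_le (h : Conf G D W p l q r) (hq : 6 ≤ q) (hV : Fintype.card V ≤ q ^ 2 + 2 * q + 1) :
    ∑ v ∈ univ.filter (fun v => v ∉ W), (W.filter fun w => G.Adj w v).card ≤ r * (2 * q) := by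
  have h1 : ∑ v ∈ univ.filter (fun v => v ∉ W), (W.filter fun w => G.Adj w v).card ≤
      ∑ w ∈ W, (G.neighborSet w).ncard := by
    calc ∑ v ∈ univ.filter (fun v => v ∉ W), (W.filter fun w => G.Adj w v).card
        ≤ ∑ v, (W.filter fun w => G.Adj w v).card :=
          Finset.sum_le_univ_sum_of_nonneg fun _ => Nat.zero_le _
      _ = ∑ w ∈ W, (G.neighborSet w).ncard := by
          simp_rw [ncard_eq, Finset.card_filter]
          rw [Finset.sum_comm]
  refine h1.trans ?_
  calc ∑ w ∈ W, (G.neighborSet w).ncard ≤ W.card • (2 * q) := by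
        refine Finset.sum_le_card_nsmul _ _ _ fun w _ => ?_
        have h2 := h.deg_le w
        by_contra hcon
        push Not at hcon
        obtain ⟨t, rfl⟩ : ∃ t, q = t + 1 := ⟨q - 1, by omega⟩
        have h3 : (G.neighborSet w).ncard * t ≤ Fintype.card V - 1 := by
          have : (G.neighborSet w).ncard * (t + 1) =
            (G.neighborSet w).ncard * t + (G.neighborSet w).ncard := by ring
          omega
        have h4 : (2 * (t + 1) + 1) * t ≤ (G.neighborSet w).ncard * t :=
          Nat.mul_le_mul_right _ hcon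
        have h5 : (2 * (t + 1) + 1) * t ≤ (t + 1) ^ 2 + 2 * (t + 1) := by omega
        nlinarith
    _ ≤ r * (2 * q) := by
        rw [smul_eq_mul]
        exact Nat.mul_le_mul_right _ h.cardW

/-- The spectral bound with slack. -/
theorem spec (h : Conf G D W p l q r) {s : ℝ} (hs : 0 < s)
    (hsQ : s ^ 2 = ProjectivePlane.order P L) (hq : 6 ≤ q)
    (hV : Fintype.card V ≤ q ^ 2 + 2 * q + 1) (hV' : q ^ 2 + q + 1 < Fintype.card V) {δ ε : ℝ}
    (hδ : 0 ≤ δ) (hε : 0 < ε) (hδε : δ + ε ≤ 1)
    (hE : ((∑ v, (D.neighborSet v).ncard : ℕ) : ℝ) ≤ δ * Fintype.card V)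
    (hqr : 12 * (r : ℝ) ≤ ε * q) :
    ((q : ℝ) - s - (δ + ε / 4)) * (s ^ 2 + s + 1) ≤ Fintype.card V := by
  classical
  have h1 := h.inc_le hs hsQ
  set U : Finset V := univ.filter fun v => v ∉ W with hU
  set m : ℝ := (Fintype.card V : ℝ) with hm
  set u : ℝ := (U.card : ℝ) with hu
  have hcardU : U.card + W.card = Fintype.card V := by
    have h2 : U = Wᶜ := by
      rw [hU]
      ext x
      simp
    rw [h2, Finset.card_compl]
    have := Finset.card_le_univ W
    omega
  have hum : u + W.card = m := by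
    rw [hu, hm]
    exact_mod_cast hcardU
  have hWr : (W.card : ℝ) ≤ r := by exact_mod_cast h.cardW
  have hW0 : (0 : ℝ) ≤ W.card := Nat.cast_nonneg _
  -- lower bound for the number of incidences
  have h2 : (q : ℝ) * u ≤
      ∑ v ∈ U, ((univ.filter fun x => x ∉ W ∧ G.Adj x v ∧ ¬ D.Adj x v).card : ℝ) +
        r * (2 * q) + δ * m := by
    have h3 : U.card • q ≤ ∑ v ∈ U, ((univ.filter fun x => x ∉ W ∧ G.Adj x v ∧ ¬ D.Adj x v).card +
        (W.filter fun w => G.Adj w v).card + (D.neighborSet v).ncard) :=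
      Finset.card_nsmul_le_sum _ _ _ fun v _ => (h.deg v).trans (h.good v)
    rw [Finset.sum_add_distrib, Finset.sum_add_distrib] at h3
    have h4 := h.cross_le hq hV
    rw [← hU] at h4
    have h5 : ∑ v ∈ U, (D.neighborSet v).ncard ≤ ∑ v, (D.neighborSet v).ncard :=
      Finset.sum_le_univ_sum_of_nonneg fun _ => Nat.zero_le _
    have h6 : ((U.card • q : ℕ) : ℝ) ≤
        ((∑ v ∈ U, (univ.filter fun x => x ∉ W ∧ G.Adj x v ∧ ¬ D.Adj x v).card + r * (2 * q) +
          ∑ v, (D.neighborSet v).ncard : ℕ) : ℝ) := by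
      refine Nat.cast_le.mpr (h3.trans ?_)
      omega
    rw [smul_eq_mul] at h6
    push_cast at h6 hE
    rw [mul_comm]
    linarith
  have hmq : (q : ℝ) ^ 2 ≤ m := by
    rw [hm]
    have : q ^ 2 ≤ Fintype.card V := by omega
    exact_mod_cast this
  have hq' : (6 : ℝ) ≤ q := by exact_mod_cast hq
  have hr0 : (0 : ℝ) ≤ r := Nat.cast_nonneg r
  have hslack : (r : ℝ) * (2 * q) + δ * m ≤ (δ + ε / 4) * u := by
    have h3 : u = m - W.card := by linarith
    have h4 : (δ + ε / 4) * W.card ≤ 1 * r := by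
      apply mul_le_mul (by linarith) hWr hW0 (by norm_num)
    have h5 : (r : ℝ) * (2 * q) + r ≤ ε / 4 * m := by
      have h6 : ε / 4 * q ^ 2 ≤ ε / 4 * m := mul_le_mul_of_nonneg_left hmq (by positivity)
      have h7 : 3 * (r : ℝ) * q ≤ ε / 4 * q ^ 2 := by nlinarith
      nlinarith
    rw [h3]
    linarith
  have hpos : 0 < s ^ 2 + s + 1 := by positivity
  have hu0 : 0 < u := by
    have h3 : (r : ℝ) < m := by
      have : 12 * (r : ℝ) ≤ q := by nlinarith
      nlinarith
    linarith
  have h3 : ((q : ℝ) - s - (δ + ε / 4)) * u ≤ u / (s ^ 2 + s + 1) * u := by linarith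
  have h4 : (q : ℝ) - s - (δ + ε / 4) ≤ u / (s ^ 2 + s + 1) := le_of_mul_le_mul_right h3 hu0
  rw [le_div_iff₀ hpos] at h4
  linarith

end Pool.Agent.PD.Conf
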